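import Pool.Agent.Helper95_DC.Filt

set_option autoImplicit false

/-!
Homomorphisms of free groups and the weighted dimension filtration.
-/

namespace Pool.Agent.Helper95_DC

open NCP

variable {Y Y' : Type} [DecidableEq Y] [DecidableEq Y'] {p : ℕ}

/-- The span of the pairs of Magnus series of `f` and `θ f`. -/
def pairSpan (p : ℕ) (θ : FreeGroup Y' →* FreeGroup Y) : Submodule (ZMod p) (NCP p Y' × NCP p Y) :=
  Submodule.span (ZMod p) (Set.range (fun f => (mg p f, mg p (θ f))))

theorem pair_mem (θ : FreeGroup Y' →* FreeGroup Y) (f : FreeGroup Y') :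
    (mg p f, mg p (θ f)) ∈ pairSpan p θ := Submodule.subset_span ⟨f, rfl⟩

theorem mul_pair_mem (θ : FreeGroup Y' →* FreeGroup Y) (h : FreeGroup Y')
    {s : NCP p Y' × NCP p Y} (hs : s ∈ pairSpan p θ) :
    (s.1 * mg p h, s.2 * mg p (θ h)) ∈ pairSpan p θ := by
  induction hs using Submodule.span_induction with
  | mem s hs =>
    obtain ⟨f, rfl⟩ := hs
    simp only
    rw [← mg_mul, ← mg_mul, ← map_mul]
    exact pair_mem θ _
  | zero =>
    have : (((0 : NCP p Y' × NCP p Y).1 * mg p h, (0 : NCP p Y' × NCP p Y).2 * mg p (θ h)) :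
        NCP p Y' × NCP p Y) = 0 := by
      simp only [Prod.fst_zero, Prod.snd_zero, zero_mul]
      rfl
    rw [this]
    exact (pairSpan p θ).zero_mem
  | add s s' _ _ h1 h2 =>
    simp only [Prod.fst_add, Prod.snd_add, add_mul]
    exact (pairSpan p θ).add_mem h1 h2
  | smul c s _ h1 =>
    simp only [Prod.smul_fst, Prod.smul_snd, smul_mul_assoc]
    exact (pairSpan p θ).smul_mem c h1

/-- The decomposition of elements of `pairSpan`. -/
def Decomp [Fintype Y'] (θ : FreeGroup Y' →* FreeGroup Y) (s : NCP p Y' × NCP p Y) : Prop :=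
  ∃ g : Y' → NCP p Y' × NCP p Y, (∀ y, g y ∈ pairSpan p θ) ∧
    s.1 = s.1 [] • (1 : NCP p Y') + ∑ y, X y * (g y).1 ∧
    s.2 = s.1 [] • (1 : NCP p Y) + ∑ y, (mg p (θ (FreeGroup.of y)) - 1) * (g y).2

theorem decomp_of_mem [Fintype Y'] (θ : FreeGroup Y' →* FreeGroup Y) {s : NCP p Y' × NCP p Y}
    (hs : s ∈ pairSpan p θ) : Decomp θ s := by
  induction hs using Submodule.span_induction with
  | mem s hs =>
    obtain ⟨f, rfl⟩ := hs
    simp only [Decomp, mg_nil, one_smul]
    induction f using FreeGroup.induction_on with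
    | C1 =>
      refine ⟨0, fun y => (pairSpan p θ).zero_mem, ?_, ?_⟩ <;> simp
    | of y =>
      refine ⟨Pi.single y 1, fun z => ?_, ?_, ?_⟩
      · by_cases hz : z = y
        · subst hz
          rw [Pi.single_eq_same]
          have := pair_mem (p := p) θ 1
          rw [map_one, mg_one, mg_one] at this
          exact this
        · rw [Pi.single_eq_of_ne hz]
          exact (pairSpan p θ).zero_mem
      · rw [mg_of]
        congr 1
        rw [Finset.sum_eq_single y]
        · simp
        · intro z _ hz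
          rw [Pi.single_eq_of_ne hz]
          simp
        · simp
      · rw [Finset.sum_eq_single y]
        · simp
        · intro z _ hz
          rw [Pi.single_eq_of_ne hz]
          simp
        · simp
    | inv_of y _ =>
      refine ⟨Pi.single y (-(mg p (FreeGroup.of y)⁻¹, mg p (θ (FreeGroup.of y)⁻¹))),
        fun z => ?_, ?_, ?_⟩
      · by_cases hz : z = y
        · subst hz
          rw [Pi.single_eq_same]
          exact (pairSpan p θ).neg_mem (pair_mem (p := p) θ _)
        · rw [Pi.single_eq_of_ne hz]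
          exact (pairSpan p θ).zero_mem
      · rw [Finset.sum_eq_single y]
        · rw [Pi.single_eq_same]
          have h1 : (X y : NCP p Y') = mg p (FreeGroup.of y) - 1 := by rw [mg_of]; simp
          simp only [Prod.fst_neg, mul_neg]
          rw [h1, sub_mul, mg_mul_inv]
          simp
        · intro z _ hz
          rw [Pi.single_eq_of_ne hz]
          simp
        · simp
      · rw [Finset.sum_eq_single y]
        · rw [Pi.single_eq_same]
          simp only [Prod.snd_neg, mul_neg]
          rw [sub_mul, map_inv, mg_mul_inv]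
          simp
        · intro z _ hz
          rw [Pi.single_eq_of_ne hz]
          simp
        · simp
    | mul f h hf hh =>
      obtain ⟨g1, hg1, e1, e1'⟩ := hf
      obtain ⟨g2, hg2, e2, e2'⟩ := hh
      refine ⟨fun y => g2 y + ((g1 y).1 * mg p h, (g1 y).2 * mg p (θ h)), fun y => ?_, ?_, ?_⟩
      · exact (pairSpan p θ).add_mem (hg2 y) (mul_pair_mem θ h (hg1 y))
      · simp only [Prod.fst_add, mul_add, Finset.sum_add_distrib]
        rw [← add_assoc, ← e2, mg_mul]
        nth_rewrite 1 [e1]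
        rw [add_mul, one_mul, Finset.sum_mul]
        simp only [mul_assoc]
      · simp only [Prod.snd_add, mul_add, Finset.sum_add_distrib]
        rw [← add_assoc, ← e2', map_mul, mg_mul]
        nth_rewrite 1 [e1']
        rw [add_mul, one_mul, Finset.sum_mul]
        simp only [mul_assoc]
  | zero =>
    refine ⟨0, fun y => (pairSpan p θ).zero_mem, ?_, ?_⟩ <;> simp
  | add s s' _ _ h1 h2 =>
    obtain ⟨g1, hg1, e1, e1'⟩ := h1
    obtain ⟨g2, hg2, e2, e2'⟩ := h2
    refine ⟨g1 + g2, fun y => (pairSpan p θ).add_mem (hg1 y) (hg2 y), ?_, ?_⟩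
    · simp only [Prod.fst_add, Pi.add_apply, mul_add, Finset.sum_add_distrib, NCP.add_apply,
        add_smul]
      nth_rewrite 1 [e1, e2]
      abel
    · simp only [Prod.fst_add, Prod.snd_add, Pi.add_apply, mul_add, Finset.sum_add_distrib,
        NCP.add_apply, add_smul]
      nth_rewrite 1 [e1', e2']
      abel
  | smul c s _ h1 =>
    obtain ⟨g1, hg1, e1, e1'⟩ := h1
    refine ⟨fun y => c • g1 y, fun y => (pairSpan p θ).smul_mem c (hg1 y), ?_, ?_⟩
    · simp only [Prod.smul_fst, mul_smul_comm, NCP.smul_apply, ← Finset.smul_sum]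
      nth_rewrite 1 [e1]
      rw [smul_add, smul_smul]
    · simp only [Prod.smul_fst, Prod.smul_snd, mul_smul_comm, NCP.smul_apply, ← Finset.smul_sum]
      nth_rewrite 1 [e1']
      rw [smul_add, smul_smul]

/-- Substitution does not decrease degrees. -/
theorem ge_snd_of_ge_fst [Fintype Y'] {d' : Y' → ℕ} {d : Y → ℕ} (hd' : ∀ y, 0 < d' y)
    (θ : FreeGroup Y' →* FreeGroup Y)
    (hθ : ∀ y, θ (FreeGroup.of y) ∈ D p d (d' y)) :
    ∀ (m : ℕ) (s : NCP p Y' × NCP p Y), s ∈ pairSpan p θ → Ge d' m s.1 → Ge d m s.2 := by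
  intro m
  induction m using Nat.strong_induction_on with
  | _ m ih =>
  intro s hs h
  rcases Nat.eq_zero_or_pos m with rfl | hm
  · exact ge_zero _
  obtain ⟨g, hg, e1, e2⟩ := decomp_of_mem θ hs
  have h0 : s.1 [] = 0 := h [] (by simpa using hm)
  rw [h0, zero_smul, zero_add] at e1 e2
  rw [e2]
  refine Ge.sum _ _ (fun y _ => ?_)
  have h1 : der y s.1 = (g y).1 := by
    rw [e1, der_sum]
    simp
  have h2 : Ge d' (m - d' y) (g y).1 := by
    rw [← h1]
    exact h.der y
  have h3 := ih (m - d' y) (by have := hd' y; omega) (g y) (hg y) h2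
  exact ((mem_D.mp (hθ y)).mul h3).mono (by omega)

theorem map_mem_D [Fintype Y'] {d' : Y' → ℕ} {d : Y → ℕ} (hd' : ∀ y, 0 < d' y)
    (θ : FreeGroup Y' →* FreeGroup Y) (hθ : ∀ y, θ (FreeGroup.of y) ∈ D p d (d' y)) {m : ℕ}
    {f : FreeGroup Y'} (hf : f ∈ D p d' m) : θ f ∈ D p d m := by
  rw [mem_D] at hf ⊢
  have h1 : (mg p f - 1, mg p (θ f) - 1) ∈ pairSpan p θ := by
    have := (pairSpan p θ).sub_mem (pair_mem (p := p) θ f) (pair_mem (p := p) θ 1)
    simpa using this
  exact ge_snd_of_ge_fst hd' θ hθ m _ h1 hf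

/-- Right independence of a family with respect to degrees. -/
def RInd (p : ℕ) (d : Y → ℕ) (d' : Y' → ℕ) [Fintype Y'] (e : Y' → NCP p Y) : Prop :=
  ∀ (m : ℕ) (h : Y' → NCP p Y), Ge d m (∑ y, e y * h y) → ∀ y, Ge d (m - d' y) (h y)

theorem ge_fst_of_ge_snd [Fintype Y'] {d' : Y' → ℕ} {d : Y → ℕ} (hd' : ∀ y, 0 < d' y)
    (θ : FreeGroup Y' →* FreeGroup Y)
    (hθ : RInd p d d' (fun y => mg p (θ (FreeGroup.of y)) - 1)) :
    ∀ (m : ℕ) (s : NCP p Y' × NCP p Y), s ∈ pairSpan p θ → Ge d m s.2 → Ge d' m s.1 := by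
  intro m
  induction m using Nat.strong_induction_on with
  | _ m ih =>
  intro s hs h
  rcases Nat.eq_zero_or_pos m with rfl | hm
  · exact ge_zero _
  obtain ⟨g, hg, e1, e2⟩ := decomp_of_mem θ hs
  have h0 : s.2 [] = 0 := h [] (by simpa using hm)
  have h0' : s.1 [] = 0 := by
    have := congrFun e2 []
    rw [add_apply, smul_apply, sum_apply, h0] at this
    simp only [mul_nil, sub_apply, mg_nil, one_nil, sub_self, zero_mul, Finset.sum_const_zero,
      add_zero, mul_one] at this
    exact this.symm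
  rw [h0', zero_smul, zero_add] at e1 e2
  rw [e1]
  refine Ge.sum _ _ (fun y _ => ?_)
  have h1 : Ge d (m - d' y) (g y).2 := by
    refine hθ m (fun y => (g y).2) ?_ y
    rw [← e2]
    exact h
  have h3 := ih (m - d' y) (by have := hd' y; omega) (g y) (hg y) h1
  exact ((ge_X d' y).mul h3).mono (by omega)

theorem mem_D_of_map_mem [Fintype Y'] {d' : Y' → ℕ} {d : Y → ℕ} (hd' : ∀ y, 0 < d' y)
    (θ : FreeGroup Y' →* FreeGroup Y)
    (hθ : RInd p d d' (fun y => mg p (θ (FreeGroup.of y)) - 1)) {m : ℕ}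
    {f : FreeGroup Y'} (hf : θ f ∈ D p d m) : f ∈ D p d' m := by
  rw [mem_D] at hf ⊢
  have h1 : (mg p f - 1, mg p (θ f) - 1) ∈ pairSpan p θ := by
    have := (pairSpan p θ).sub_mem (pair_mem (p := p) θ f) (pair_mem (p := p) θ 1)
    simpa using this
  exact ge_fst_of_ge_snd hd' θ hθ m _ h1 hf

omit [DecidableEq Y] [DecidableEq Y'] in
/-- Right independence is stable under perturbations of higher degree. -/
theorem RInd.perturb [Fintype Y'] {d' : Y' → ℕ} {d : Y → ℕ} {e L : Y' → NCP p Y}
    (hL : RInd p d d' L) (he : ∀ y, Ge d (d' y + 1) (e y - L y)) : RInd p d d' e := by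
  intro m
  induction m with
  | zero =>
    intro h _ y
    rw [Nat.zero_sub]
    exact ge_zero _
  | succ m ih =>
    intro h hh
    have h1 := ih h (hh.mono (Nat.le_succ m))
    refine hL (m + 1) h ?_
    have : ∑ y, L y * h y = ∑ y, e y * h y - ∑ y, (e y - L y) * h y := by
      rw [← Finset.sum_sub_distrib]
      refine Finset.sum_congr rfl (fun y _ => ?_)
      rw [sub_mul]
      abel
    rw [this]
    refine hh.sub (Ge.sum _ _ (fun y _ => ?_))
    exact ((he y).mul (h1 y)).mono (by omega)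

end Pool.Agent.Helper95_DC
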