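import Mathlib

set_option autoImplicit false

/-!
Interface between the two halves of the negative answer to the question whether every infinite
countable group is dynamically compressible: the group-theoretic input (`Monster`) and the
measure-theoretic half (`Monster G` implies that `G` is not dynamically compressible).
-/

namespace Pool.Agent.Helper95_DC

open scoped commutatorElement

/-- Kazhdan property of `G` with respect to the finite set `S` and the constant `C`, in the form: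
a vector that is `ε`-almost fixed by `S` is `C ε`-close to a fixed vector. -/
def Kazhdan (G : Type) [Group G] (S : Finset G) (C : ℝ) : Prop :=
  ∀ (H : Type) [NormedAddCommGroup H] [InnerProductSpace ℝ H] [CompleteSpace H]
    (ρ : G →* Module.End ℝ H), (∀ g v, ‖ρ g v‖ = ‖v‖) →
    ∀ (v : H) (ε : ℝ), 0 ≤ ε → (∀ s ∈ S, ‖ρ s v - v‖ ≤ ε) →
      ∃ w : H, (∀ g, ρ g w = w) ∧ ‖v - w‖ ≤ C * ε

/-- The group-theoretic input. -/
structure Monster (G : Type) [Group G] : Prop where
  countable : Countable G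
  infinite : Infinite G
  kazhdan : ∃ (S : Finset G) (C : ℝ), 0 ≤ C ∧ Subgroup.closure (S : Set G) = ⊤ ∧ Kazhdan G S C
  dichotomy : ∀ H : Subgroup G, H.FG → Finite H ∨ H.FiniteIndex
  filtration : ∃ V : ℕ → Subgroup G, Antitone V ∧ (∀ j, (V j).Normal) ∧
    (∀ j, (V j).FiniteIndex) ∧ (⨅ j, V j = ⊥) ∧
    ∀ H : Subgroup G, ¬ H.FiniteIndex → ∀ n : ℕ, ∃ j, n ≤ (H ⊔ V j).index
  radical : ∀ M N : Subgroup G, N.FiniteIndex → ¬ M.FiniteIndex →
    (∀ n ∈ N, ∀ m ∈ M, n * m * n⁻¹ ∈ M) → M = ⊥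

/-- The statement of the problem for one group `G`. -/
def DynCompressible (G : Type) [Group G] : Prop :=
  ∀ (X : Type) [MeasurableSpace X] [StandardBorelSpace X] [MulAction G X],
    (∀ g : G, Measurable (fun x : X => g • x)) →
    (∀ x : X, (MulAction.orbit G x).Infinite) →
    ∃ (Y : Type) (_ : MeasurableSpace Y) (_ : StandardBorelSpace Y) (_ : MulAction G Y),
      (∀ g : G, Measurable (fun y : Y => g • y)) ∧
      (∀ y : Y, (MulAction.orbit G y).Infinite) ∧
      (∃ c : Y → Y, Measurable c ∧ Function.Injective c ∧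
        (∀ y : Y, c y ∈ MulAction.orbit G y) ∧
        (∀ y : Y, ∃ z ∈ MulAction.orbit G y, ∀ w : Y, c w ≠ z)) ∧
      (∃ f : X → Y, Measurable f ∧
        ∀ x x' : X, (x' ∈ MulAction.orbit G x ↔ f x' ∈ MulAction.orbit G (f x)))

/-- The relations used for property (T). -/
def KMSRel {G : Type} [Group G] (x : Fin 6 → G) : Prop :=
  (∀ i, x i ^ 29 = 1) ∧ (∀ i j, ⁅⁅x i, x j⁆, x i⁆ = 1) ∧ (∀ i j, ⁅⁅x i, x j⁆, x j⁆ = 1)

/-- MODULE KAZ: the relations imply the Kazhdan property. -/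
def KazStatement : Prop :=
  ∀ (G : Type) [Group G] (x : Fin 6 → G), Subgroup.closure (Set.range x) = ⊤ → KMSRel x →
    ∃ C : ℝ, 0 ≤ C ∧ ∀ S : Finset G, (∀ i, x i ∈ S) → Kazhdan G S C

/-- MODULE RAD: passing to the quotient by the locally finite radical. -/
def RadStatement : Prop :=
  ∀ (p : ℕ) [Fact p.Prime] (Γ : Type) [Group Γ], Group.FG Γ → Infinite Γ →
    (∀ H : Subgroup Γ, H.FG → Finite H ∨ H.FiniteIndex) → (∀ g : Γ, IsOfFinOrder g) →
    (∃ V : ℕ → Subgroup Γ, Antitone V ∧ (∀ j, (V j).Normal) ∧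
      (∀ j, ∃ k, (V j).index = p ^ k) ∧ ⨅ j, V j = ⊥) →
    ∃ (R : Subgroup Γ) (_ : R.Normal), Infinite (Γ ⧸ R) ∧
      (∀ H : Subgroup (Γ ⧸ R), H.FG → Finite H ∨ H.FiniteIndex) ∧
      (∃ V : ℕ → Subgroup (Γ ⧸ R), Antitone V ∧ (∀ j, (V j).Normal) ∧
        (∀ j, (V j).FiniteIndex) ∧ (⨅ j, V j = ⊥) ∧
        ∀ H : Subgroup (Γ ⧸ R), ¬ H.FiniteIndex → ∀ n : ℕ, ∃ j, n ≤ (H ⊔ V j).index) ∧
      (∀ M N : Subgroup (Γ ⧸ R), N.FiniteIndex → ¬ M.FiniteIndex →
        (∀ n ∈ N, ∀ m ∈ M, n * m * n⁻¹ ∈ M) → M = ⊥)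

/-- MODULE GRP (assembled from the Golod-Shafarevich modules). -/
def GrpStatement : Prop :=
  ∃ (Γ : Type) (_ : Group Γ) (x : Fin 6 → Γ), Subgroup.closure (Set.range x) = ⊤ ∧ KMSRel x ∧
    Infinite Γ ∧ (∀ H : Subgroup Γ, H.FG → Finite H ∨ H.FiniteIndex) ∧
    (∀ g : Γ, IsOfFinOrder g) ∧
    (∃ V : ℕ → Subgroup Γ, Antitone V ∧ (∀ j, (V j).Normal) ∧
      (∀ j, ∃ k, (V j).index = 29 ^ k) ∧ ⨅ j, V j = ⊥)

/-- The three modules give a group with all the required properties. -/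
theorem exists_monster (hK : KazStatement) (hR : RadStatement) (hG : GrpStatement) :
    ∃ (G : Type) (_ : Group G), Monster G := by
  obtain ⟨Γ, _, x, hx, hrel, hinf, hdich, htors, hV⟩ := hG
  have : Fact (Nat.Prime 29) := ⟨by norm_num⟩
  classical
  have hfg : Group.FG Γ := by
    refine ⟨⟨Finset.univ.image x, ?_⟩⟩
    · rw [Finset.coe_image, Finset.coe_univ, Set.image_univ]
      exact hx
  obtain ⟨R, hRn, h1, h2, h3, h4⟩ := hR 29 Γ hfg hinf hdich htors hV
  refine ⟨Γ ⧸ R, inferInstance, ?_⟩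
  have hfgR : Group.FG (Γ ⧸ R) := inferInstance
  have hcl : Subgroup.closure (Set.range (fun i => (QuotientGroup.mk' R) (x i))) = ⊤ := by
    have : Set.range (fun i => (QuotientGroup.mk' R) (x i)) =
        (QuotientGroup.mk' R) '' Set.range x := by
      rw [← Set.range_comp]; rfl
    rw [this, ← MonoidHom.map_closure, hx]
    exact Subgroup.map_top_of_surjective _ (QuotientGroup.mk'_surjective R)
  have hrelR : KMSRel (fun i => (QuotientGroup.mk' R) (x i)) := by
    refine ⟨fun i => ?_, fun i j => ?_, fun i j => ?_⟩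
    · rw [← map_pow, hrel.1 i, map_one]
    · rw [← map_commutatorElement, ← map_commutatorElement, hrel.2.1 i j, map_one]
    · rw [← map_commutatorElement, ← map_commutatorElement, hrel.2.2 i j, map_one]
  obtain ⟨C, hC, hKaz⟩ := hK (Γ ⧸ R) _ hcl hrelR
  refine ⟨?_, h1, ⟨Finset.univ.image (fun i => (QuotientGroup.mk' R) (x i)), C, hC, ?_, ?_⟩, h2, h3, h4⟩
  · have hc : Countable (FreeGroup (Fin 6)) := by
      have : Function.Surjective (Quot.mk (@FreeGroup.Red.Step (Fin 6))) := Quot.mk_surjective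
      exact this.countable
    have hs : Function.Surjective
        (FreeGroup.lift (fun i => (QuotientGroup.mk' R) (x i)) : FreeGroup (Fin 6) →* Γ ⧸ R) := by
      rw [← MonoidHom.range_eq_top, FreeGroup.range_lift_eq_closure]
      exact hcl
    exact hs.countable
  · rw [Finset.coe_image, Finset.coe_univ, Set.image_univ]
    exact hcl
  · exact hKaz _ (fun i => Finset.mem_image_of_mem _ (Finset.mem_univ i))

end Pool.Agent.Helper95_DC
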