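import Pool.Agent.Helper95_DC.Ind

set_option autoImplicit false

/-!
The elements `bas p x` form a basis of the kernel of a homomorphism onto `ZMod p` killing all
generators except `x`.
-/

namespace Pool.Agent.Helper95_DC

open scoped commutatorElement

section general

variable {G : Type} [Group G]

/-- If `σ (c i) = c (i + 1) * c i`, then `σ^k (c 0) = c k * w` with `w` generated by
`c 0, ..., c (k - 1)`. -/
theorem iter_eq (σ : G →* G) (c : ℕ → G) (h : ∀ i, σ (c i) = c (i + 1) * c i) (k : ℕ) :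
    ∃ w ∈ Subgroup.closure (c '' {i | i < k}), (σ : G → G)^[k] (c 0) = c k * w := by
  induction k with
  | zero => exact ⟨1, Subgroup.one_mem _, by simp⟩
  | succ k ih =>
    obtain ⟨w, hw, e⟩ := ih
    have hσ : ∀ v ∈ Subgroup.closure (c '' {i | i < k}),
        σ v ∈ Subgroup.closure (c '' {i | i < k + 1}) := by
      intro v hv
      have : Subgroup.closure (c '' {i | i < k}) ≤
          (Subgroup.closure (c '' {i | i < k + 1})).comap σ := by
        rw [Subgroup.closure_le]
        rintro _ ⟨i, hi, rfl⟩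
        rw [SetLike.mem_coe, Subgroup.mem_comap, h i]
        have hi' : i < k := hi
        exact Subgroup.mul_mem _
          (Subgroup.subset_closure ⟨i + 1, by change i + 1 < k + 1; omega, rfl⟩)
          (Subgroup.subset_closure ⟨i, by change i < k + 1; omega, rfl⟩)
      exact this hv
    refine ⟨c k * σ w, Subgroup.mul_mem _
      (Subgroup.subset_closure ⟨k, by change k < k + 1; omega, rfl⟩) (hσ w hw), ?_⟩
    rw [Function.iterate_succ_apply', e, map_mul, h, mul_assoc]

theorem conj_cm (x a : G) (i : ℕ) :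
    (MulAut.conj x).toMonoidHom (cm x a i) = cm x a (i + 1) * cm x a i := by
  simp [cm, commutatorElement_def]

theorem conj_iter (x a : G) (k : ℕ) :
    ((MulAut.conj x).toMonoidHom : G → G)^[k] a = x ^ k * a * (x ^ k)⁻¹ := by
  induction k with
  | zero => simp
  | succ k ih =>
    rw [Function.iterate_succ_apply', ih]
    simp [pow_succ', mul_assoc]

/-- `cm x a k ∈ K` if `cm x a i ∈ K` for `i < k` and `x ^ k * a * x ^ (- k) ∈ K`. -/
theorem cm_mem_of (K : Subgroup G) (x a : G) (k : ℕ) (h : ∀ i < k, cm x a i ∈ K)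
    (hk : x ^ k * a * (x ^ k)⁻¹ ∈ K) : cm x a k ∈ K := by
  obtain ⟨w, hw, e⟩ := iter_eq (MulAut.conj x).toMonoidHom (cm x a) (conj_cm x a) k
  have hwK : w ∈ K := by
    have : Subgroup.closure (cm x a '' {i | i < k}) ≤ K := by
      rw [Subgroup.closure_le]
      rintro _ ⟨i, hi, rfl⟩
      exact h i hi
    exact this hw
  have e2 : cm x a 0 = a := rfl
  rw [e2, conj_iter] at e
  rw [e] at hk
  have := K.mul_mem hk (K.inv_mem hwK)
  rwa [mul_inv_cancel_right] at this

/-- Criterion for normalizing. -/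
theorem mem_normalizer_of (K : Subgroup G) (x : G) (p : ℕ) (hp : 0 < p)
    (h1 : ∀ k ∈ K, x * k * x⁻¹ ∈ K) (h2 : ∀ k ∈ K, (x ^ p)⁻¹ * k * x ^ p ∈ K) :
    ∀ k, k ∈ K ↔ x * k * x⁻¹ ∈ K := by
  have h3 : ∀ (n : ℕ), ∀ k ∈ K, x ^ n * k * (x ^ n)⁻¹ ∈ K := by
    intro n
    induction n with
    | zero => intro k hk; simpa using hk
    | succ n ih =>
      intro k hk
      have := h1 _ (ih k hk)
      have e : x * (x ^ n * k * (x ^ n)⁻¹) * x⁻¹ = x ^ (n + 1) * k * (x ^ (n + 1))⁻¹ := by
        rw [pow_succ']; group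
      rwa [e] at this
  intro k
  refine ⟨h1 k, fun h => ?_⟩
  have h4 := h2 _ (h3 (p - 1) _ h)
  have e : (x ^ p)⁻¹ * (x ^ (p - 1) * (x * k * x⁻¹) * (x ^ (p - 1))⁻¹) * x ^ p = k := by
    obtain ⟨n, rfl⟩ : ∃ n, p = n + 1 := ⟨p - 1, by omega⟩
    rw [Nat.add_sub_cancel, pow_succ]
    group
  rwa [e] at h4

end general

variable {Y : Type} [DecidableEq Y] {p : ℕ} [Fact p.Prime]

/-- The universal endomorphism. -/
def sig : FreeGroup ℕ →* FreeGroup ℕ :=
  FreeGroup.lift (fun i => FreeGroup.of (i + 1) * FreeGroup.of i)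

theorem sig_of (i : ℕ) : sig (FreeGroup.of i) = FreeGroup.of (i + 1) * FreeGroup.of i := by
  simp [sig]

/-- The word expressing `x ^ k * y * x ^ (-k)`. -/
def uw (k : ℕ) : FreeGroup ℕ := (sig : FreeGroup ℕ → FreeGroup ℕ)^[k] (FreeGroup.of 0)

/-- Evaluation in the free group on `Y₁ p x`. -/
def ev₁ (p : ℕ) (x : Y) (y : {y : Y // y ≠ x}) : FreeGroup ℕ →* FreeGroup (Y₁ p x) :=
  FreeGroup.lift (fun i => if h : i < p then FreeGroup.of (some (y, ⟨i, h⟩)) else 1)

/-- Evaluation in the free group on `Y`. -/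
def ev (x : Y) (y : Y) : FreeGroup ℕ →* FreeGroup Y :=
  FreeGroup.lift (fun i => cm (FreeGroup.of x) (FreeGroup.of y) i)

omit [DecidableEq Y] in
theorem ev_sig (x y : Y) (w : FreeGroup ℕ) :
    ev x y (sig w) = FreeGroup.of x * ev x y w * (FreeGroup.of x)⁻¹ := by
  have : (ev x y).comp sig = (MulAut.conj (FreeGroup.of x)).toMonoidHom.comp (ev x y) := by
    ext i
    simp only [MonoidHom.comp_apply, sig_of, map_mul]
    simp only [ev, FreeGroup.lift_apply_of]
    exact (conj_cm _ _ _).symm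
  have := DFunLike.congr_fun this w
  simpa using this

omit [DecidableEq Y] in
theorem ev_uw (x y : Y) (k : ℕ) :
    ev x y (uw k) = FreeGroup.of x ^ k * FreeGroup.of y * (FreeGroup.of x ^ k)⁻¹ := by
  induction k with
  | zero => simp [uw, ev, cm]
  | succ k ih =>
    have : uw (k + 1) = sig (uw k) := by
      rw [uw, Function.iterate_succ_apply']; rfl
    rw [this, ev_sig, ih, pow_succ']
    group

/-- The permutations used for the right action. -/
def perm₁ (p : ℕ) [Fact p.Prime] (x : Y) (y : Y) : Equiv.Perm (FreeGroup (Y₁ p x) × ZMod p) :=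
  if h : y = x then
    { toFun := fun ω => (ω.1 * (if ω.2 = -1 then FreeGroup.of none else 1), ω.2 + 1)
      invFun := fun ω => (ω.1 * (if ω.2 - 1 = -1 then FreeGroup.of none else 1)⁻¹, ω.2 - 1)
      left_inv := fun ω => by
        rcases ω with ⟨g, i⟩
        by_cases hi : i = -1 <;> simp [hi]
      right_inv := fun ω => by
        rcases ω with ⟨g, i⟩
        by_cases hi : i = 0 <;> simp [hi] }
  else
    { toFun := fun ω => (ω.1 * ev₁ p x ⟨y, h⟩ (uw ω.2.val), ω.2)
      invFun := fun ω => (ω.1 * (ev₁ p x ⟨y, h⟩ (uw ω.2.val))⁻¹, ω.2)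
      left_inv := fun ω => by ext1 <;> simp
      right_inv := fun ω => by ext1 <;> simp }

/-- The right action as a homomorphism to the opposite permutation group. -/
def act (p : ℕ) [Fact p.Prime] (x : Y) :
    FreeGroup Y →* (Equiv.Perm (FreeGroup (Y₁ p x) × ZMod p))ᵐᵒᵖ :=
  FreeGroup.lift (fun y => MulOpposite.op (perm₁ p x y))

theorem act_mul (x : Y) (f g : FreeGroup Y) (ω : FreeGroup (Y₁ p x) × ZMod p) :
    (act p x (f * g)).unop ω = (act p x g).unop ((act p x f).unop ω) := by
  rw [map_mul, MulOpposite.unop_mul, Equiv.Perm.mul_apply]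

theorem act_x (x : Y) (ω : FreeGroup (Y₁ p x) × ZMod p) :
    (act p x (FreeGroup.of x)).unop ω =
      (ω.1 * (if ω.2 = -1 then FreeGroup.of none else 1), ω.2 + 1) := by
  simp [act, perm₁]

theorem act_y (x y : Y) (h : y ≠ x) (ω : FreeGroup (Y₁ p x) × ZMod p) :
    (act p x (FreeGroup.of y)).unop ω = (ω.1 * ev₁ p x ⟨y, h⟩ (uw ω.2.val), ω.2) := by
  simp [act, perm₁, h]

theorem act_x_pow (x : Y) (k : ℕ) (hk : k < p) (g : FreeGroup (Y₁ p x)) :
    (act p x (FreeGroup.of x ^ k)).unop (g, 0) = (g, (k : ZMod p)) := by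
  induction k with
  | zero => simp
  | succ k ih =>
    rw [pow_succ, act_mul, ih (by omega), act_x]
    have : (k : ZMod p) ≠ -1 := by
      intro h
      have h2 : ((k + 1 : ℕ) : ZMod p) = 0 := by
        push_cast
        rw [h]; ring
      rw [ZMod.natCast_eq_zero_iff] at h2
      exact absurd (Nat.le_of_dvd (Nat.succ_pos k) h2) (by omega)
    simp [this]

theorem act_x_pow_p (x : Y) (g : FreeGroup (Y₁ p x)) :
    (act p x (FreeGroup.of x ^ p)).unop (g, 0) = (g * FreeGroup.of none, 0) := by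
  have hp := (Fact.out : p.Prime).pos
  have e : FreeGroup.of x ^ p = FreeGroup.of x ^ (p - 1) * FreeGroup.of x := by
    rw [← pow_succ]; congr 1; omega
  rw [e, act_mul, act_x_pow x (p - 1) (by omega), act_x]
  have : ((p - 1 : ℕ) : ZMod p) = -1 := by
    rw [Nat.cast_sub (by omega)]
    simp
  simp [this]

theorem act_inv_of (x : Y) (f : FreeGroup Y) (c : FreeGroup (Y₁ p x))
    (h : ∀ g, (act p x f).unop (g, 0) = (g * c, 0)) :
    ∀ g, (act p x f⁻¹).unop (g, 0) = (g * c⁻¹, 0) := by
  intro g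
  have h1 := h (g * c⁻¹)
  rw [inv_mul_cancel_right] at h1
  rw [← h1, ← act_mul, mul_inv_cancel, map_one]
  rfl

/-- The elements acting as right multiplication. -/
def good (p : ℕ) [Fact p.Prime] (x : Y) : Subgroup (FreeGroup Y × FreeGroup (Y₁ p x)) where
  carrier := {q | ∀ g, (act p x q.1).unop (g, 0) = (g * q.2, 0)}
  mul_mem' := by
    intro a b ha hb g
    change (act p x (a.1 * b.1)).unop (g, 0) = (g * (a.2 * b.2), 0)
    rw [act_mul, ha g, hb, mul_assoc]
  one_mem' := by
    intro g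
    simp
  inv_mem' := by
    intro a ha
    exact act_inv_of x a.1 a.2 ha

theorem mem_good (x : Y) (f : FreeGroup Y) (c : FreeGroup (Y₁ p x)) :
    (f, c) ∈ good p x ↔ ∀ g, (act p x f).unop (g, 0) = (g * c, 0) := Iff.rfl

theorem good_cm (x : Y) (y : {y : Y // y ≠ x}) (j : ℕ) (hj : j < p) :
    (cm (FreeGroup.of x) (FreeGroup.of y.1) j, FreeGroup.of (some (y, ⟨j, hj⟩))) ∈ good p x := by
  induction j using Nat.strong_induction_on with
  | _ j ih =>
  -- the subgroup of words for which the claim holds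
  let K : Subgroup (FreeGroup ℕ) := (good p x).comap ((ev x y.1).prod (ev₁ p x y))
  have hK : ∀ w, w ∈ K ↔ (ev x y.1 w, ev₁ p x y w) ∈ good p x := fun w => Iff.rfl
  have h1 : uw j ∈ K := by
    rw [hK, mem_good]
    intro g
    rw [ev_uw, act_mul, act_mul, act_x_pow x j hj, act_y x y.1 y.2]
    have e1 : (j : ZMod p).val = j := ZMod.val_natCast_of_lt hj
    simp only [e1]
    have h2 := act_x_pow x j hj (g * ev₁ p x ⟨y.1, y.2⟩ (uw j))
    rw [← h2, ← act_mul, mul_inv_cancel, map_one]
    rfl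
  obtain ⟨w, hw, e⟩ := iter_eq sig (fun i => FreeGroup.of i) sig_of j
  have e' : uw j = FreeGroup.of j * w := e
  have hwK : w ∈ K := by
    have : Subgroup.closure ((fun i => FreeGroup.of i : ℕ → FreeGroup ℕ) '' {i | i < j}) ≤ K := by
      rw [Subgroup.closure_le]
      rintro _ ⟨i, hi, rfl⟩
      have hi' : i < j := hi
      rw [SetLike.mem_coe, hK]
      have := ih i hi' (hi'.trans hj)
      simpa [ev, ev₁, hi'.trans hj] using this
    exact this hw
  have h3 : FreeGroup.of j ∈ K := by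
    rw [e'] at h1
    have := K.mul_mem h1 (K.inv_mem hwK)
    rwa [mul_inv_cancel_right] at this
  rw [hK] at h3
  simpa [ev, ev₁, hj] using h3

theorem lift_bas_injective (x : Y) : Function.Injective (FreeGroup.lift (bas p x)) := by
  have h : ∀ c : FreeGroup (Y₁ p x), (FreeGroup.lift (bas p x) c, c) ∈ good p x := by
    intro c
    have hle : (⊤ : Subgroup (FreeGroup (Y₁ p x))) ≤
        (good p x).comap ((FreeGroup.lift (bas p x)).prod (MonoidHom.id _)) := by
      rw [← FreeGroup.closure_range_of, Subgroup.closure_le]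
      rintro _ ⟨y, rfl⟩
      rw [SetLike.mem_coe, Subgroup.mem_comap]
      change (FreeGroup.lift (bas p x) (FreeGroup.of y), FreeGroup.of y) ∈ good p x
      rw [FreeGroup.lift_apply_of]
      match y with
      | none =>
        rw [mem_good]
        exact act_x_pow_p x
      | some (y, i) => exact good_cm x y i i.2
    exact hle (Subgroup.mem_top c)
  intro c c' hcc
  have h1 := h c 1
  have h2 := h c' 1
  simp only at h1 h2
  rw [hcc, h2] at h1
  simpa using (congrArg Prod.fst h1).symm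

end Pool.Agent.Helper95_DC
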