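import Pool.Agent.Helper95_DC.NCP

set_option autoImplicit false

/-!
The weighted dimension filtration `D p d m` of a free group.
-/

namespace Pool.Agent.Helper95_DC

open NCP
open scoped commutatorElement

variable {Y : Type} [DecidableEq Y] {p : ℕ}

/-- The Magnus series of an element of the free group. -/
def mg (p : ℕ) (f : FreeGroup Y) : NCP p Y := ((NCP.mag p f : (NCP p Y)ˣ) : NCP p Y)

@[simp] theorem mg_one : mg p (1 : FreeGroup Y) = 1 := by simp [mg]
theorem mg_mul (f g : FreeGroup Y) : mg p (f * g) = mg p f * mg p g := by simp [mg]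
theorem mg_of (y : Y) : mg p (FreeGroup.of y) = 1 + X y := by simp [mg]
theorem mg_mul_inv (f : FreeGroup Y) : mg p f * mg p f⁻¹ = 1 := by rw [← mg_mul]; simp
theorem mg_inv_mul (f : FreeGroup Y) : mg p f⁻¹ * mg p f = 1 := by rw [← mg_mul]; simp
theorem mg_pow (f : FreeGroup Y) (k : ℕ) : mg p (f ^ k) = mg p f ^ k := by simp [mg]

/-- The weighted dimension subgroup. -/
def D (p : ℕ) (d : Y → ℕ) (m : ℕ) : Subgroup (FreeGroup Y) where
  carrier := {f | Ge d m (mg p f - 1)}
  mul_mem' := by
    intro f g hf hg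
    have : mg p (f * g) - 1 = mg p f * (mg p g - 1) + (mg p f - 1) := by
      rw [mg_mul]; noncomm_ring
    rw [Set.mem_ofPred_eq, this]
    exact (hg.mul_left _).add hf
  one_mem' := by
    rw [Set.mem_ofPred_eq, mg_one, sub_self]
    exact ge_of_zero m
  inv_mem' := by
    intro f hf
    have : mg p f⁻¹ - 1 = -(mg p f⁻¹ * (mg p f - 1)) := by
      rw [mul_sub, mg_inv_mul]; noncomm_ring
    rw [Set.mem_ofPred_eq, this]
    exact (hf.mul_left _).neg

theorem mem_D {d : Y → ℕ} {m : ℕ} {f : FreeGroup Y} : f ∈ D p d m ↔ Ge d m (mg p f - 1) := Iff.rfl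

instance D_normal (d : Y → ℕ) (m : ℕ) : (D p d m).Normal := by
  refine ⟨fun f hf g => ?_⟩
  rw [mem_D] at hf ⊢
  have : mg p (g * f * g⁻¹) - 1 = mg p g * ((mg p f - 1) * mg p g⁻¹) := by
    rw [mg_mul, mg_mul, sub_mul, mul_sub, one_mul, mg_mul_inv, mul_assoc]
  rw [this]
  exact (hf.mul_right _).mul_left _

theorem D_antitone (d : Y → ℕ) : Antitone (D p d) := fun _ _ h _ hf => Ge.mono hf h

theorem D_zero (d : Y → ℕ) : D p d 0 = ⊤ := by
  rw [eq_top_iff]
  intro f _
  exact ge_zero _

theorem mg_nil (f : FreeGroup Y) : mg p f [] = 1 := by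
  induction f using FreeGroup.induction_on with
  | C1 => simp
  | of y => simp [mg_of]
  | inv_of y h =>
    have := congrFun (mg_mul_inv (p := p) (FreeGroup.of y)) []
    rw [mul_nil, h, one_mul] at this
    exact this
  | mul f g hf hg => rw [mg_mul, mul_nil, hf, hg, one_mul]

theorem D_one {d : Y → ℕ} (hd : ∀ y, 0 < d y) : D p d 1 = ⊤ := by
  rw [eq_top_iff]
  intro f _ w hw
  cases w with
  | nil => simp [mg_nil]
  | cons y w =>
    have := hd y
    simp at hw
    omega

theorem commutator_mem_D {d : Y → ℕ} {a b : ℕ} {f g : FreeGroup Y} (hf : f ∈ D p d a)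
    (hg : g ∈ D p d b) : ⁅f, g⁆ ∈ D p d (a + b) := by
  rw [mem_D] at *
  have h1 : mg p f * mg p g * (mg p f⁻¹ * mg p g⁻¹) = mg p ⁅f, g⁆ := by
    rw [commutatorElement_def, mg_mul, mg_mul, mg_mul, mul_assoc, mul_assoc, mul_assoc]
  have h2 : mg p g * mg p f * (mg p f⁻¹ * mg p g⁻¹) = 1 := by
    rw [mul_assoc, ← mul_assoc (mg p f), mg_mul_inv, one_mul, mg_mul_inv]
  have : mg p ⁅f, g⁆ - 1 = ((mg p f - 1) * (mg p g - 1) - (mg p g - 1) * (mg p f - 1)) *
      (mg p f⁻¹ * mg p g⁻¹) := by
    have h3 : (mg p f - 1) * (mg p g - 1) - (mg p g - 1) * (mg p f - 1) =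
        mg p f * mg p g - mg p g * mg p f := by noncomm_ring
    rw [h3, sub_mul, h1, h2]
  rw [this]
  refine Ge.mul_right (Ge.sub (hf.mul hg) ?_) _
  rw [add_comm]
  exact hg.mul hf

instance [Fact p.Prime] : CharP (NCP p Y) p := by
  have : Nontrivial (NCP p Y) := ⟨⟨0, 1, fun h => by
    have := congrFun h []
    rw [zero_apply, one_nil] at this
    exact zero_ne_one this⟩⟩
  exact charP_of_injective_algebraMap (algebraMap (ZMod p) (NCP p Y)).injective p

theorem pow_mem_D [Fact p.Prime] {d : Y → ℕ} {a : ℕ} {f : FreeGroup Y} (hf : f ∈ D p d a) :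
    f ^ p ∈ D p d (p * a) := by
  rw [mem_D] at *
  have : mg p (f ^ p) - 1 = (mg p f - 1) ^ p := by
    rw [mg_pow, sub_pow_char_of_commute]
    · simp
    · exact Commute.one_right _
  rw [this]
  exact hf.pow p

theorem pow_pow_mem_D [Fact p.Prime] {d : Y → ℕ} {a : ℕ} {f : FreeGroup Y} (hf : f ∈ D p d a)
    (k : ℕ) : f ^ (p ^ k) ∈ D p d (p ^ k * a) := by
  induction k with
  | zero => simpa using hf
  | succ k ih =>
    rw [pow_succ p k, pow_mul]
    have := pow_mem_D ih
    rwa [← mul_assoc, mul_comm p] at this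

omit [DecidableEq Y] in
theorem finite_words [Finite Y] {d : Y → ℕ} (hd : ∀ y, 0 < d y) (m : ℕ) :
    {w : List Y | (w.map d).sum < m}.Finite := by
  refine (List.finite_length_lt Y m).subset (fun w hw => ?_)
  have hw' : (w.map d).sum < m := hw
  refine lt_of_le_of_lt ?_ hw'
  clear hw hw'
  induction w with
  | nil => simp
  | cons y w ih =>
    simp only [List.length_cons, List.map_cons, List.sum_cons]
    have := hd y
    omega

theorem D_finiteIndex [Finite Y] [Fact p.Prime] {d : Y → ℕ} (hd : ∀ y, 0 < d y) (m : ℕ) :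
    (D p d m).FiniteIndex := by
  have hfin := finite_words hd m
  have : Finite {w : List Y | (w.map d).sum < m} := hfin.to_subtype
  have : NeZero p := ⟨(Fact.out : p.Prime).ne_zero⟩
  let F : FreeGroup Y → ({w : List Y | (w.map d).sum < m} → ZMod p) := fun f w => mg p f w.1
  have hF : ∀ f g, F f = F g → f⁻¹ * g ∈ D p d m := by
    intro f g hfg
    rw [mem_D]
    have : mg p (f⁻¹ * g) - 1 = mg p f⁻¹ * (mg p g - mg p f) := by
      rw [mul_sub, mg_inv_mul, mg_mul]
    rw [this]
    refine Ge.mul_left _ (fun w hw => ?_)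
    rw [sub_apply, sub_eq_zero]
    exact (congrFun hfg ⟨w, hw⟩).symm
  have : Finite (FreeGroup Y ⧸ D p d m) := by
    refine Finite.of_injective (fun q : FreeGroup Y ⧸ D p d m => F q.out) (fun q q' h => ?_)
    rw [← q.out_eq', ← q'.out_eq']
    exact QuotientGroup.eq.mpr (hF _ _ h)
  exact Subgroup.finiteIndex_of_finite_quotient

theorem D_index [Finite Y] [Fact p.Prime] {d : Y → ℕ} (hd : ∀ y, 0 < d y) (m : ℕ) :
    ∃ k, (D p d m).index = p ^ k := by
  have := D_finiteIndex (p := p) hd m
  have : Finite (FreeGroup Y ⧸ D p d m) := inferInstance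
  have hP : IsPGroup p (FreeGroup Y ⧸ D p d m) := by
    intro q
    induction q using QuotientGroup.induction_on with
    | H f =>
    have hf : f ∈ D p d 1 := by rw [D_one hd]; trivial
    refine ⟨m, ?_⟩
    rw [← QuotientGroup.mk_pow, QuotientGroup.eq_one_iff]
    refine D_antitone d ?_ (pow_pow_mem_D hf m)
    rw [mul_one]
    exact (Nat.lt_pow_self (Fact.out : p.Prime).one_lt).le
  rw [Subgroup.index_eq_card]
  exact IsPGroup.iff_card.mp hP

/-- The linear coefficients determine homomorphisms to `ZMod p`. -/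
theorem hom_eq_sum [Fintype Y] (χ : FreeGroup Y →* Multiplicative (ZMod p)) (f : FreeGroup Y) :
    Multiplicative.toAdd (χ f) = ∑ y, mg p f [y] * Multiplicative.toAdd (χ (FreeGroup.of y)) := by
  have key : ∀ f g : FreeGroup Y, ∀ y, mg p (f * g) [y] = mg p f [y] + mg p g [y] := by
    intro f g y
    rw [mg_mul, mul_cons, mg_nil, mul_nil, der_apply, mg_nil]
    ring
  induction f using FreeGroup.induction_on with
  | C1 =>
    simp
  | of y =>
    have : ∀ z, mg p (FreeGroup.of y) [z] = if z = y then 1 else 0 := by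
      intro z
      rw [mg_of]
      change (1 : NCP p Y) [z] + (X y : NCP p Y) [z] = _
      rw [one_cons, zero_add]
      rfl
    simp [this]
  | inv_of y h =>
    have h1 : ∀ z, mg p (FreeGroup.of y)⁻¹ [z] = - mg p (FreeGroup.of y) [z] := by
      intro z
      have := key (FreeGroup.of y) (FreeGroup.of y)⁻¹ z
      rw [mul_inv_cancel, mg_one, one_cons] at this
      linear_combination -this
    simp only [map_inv, toAdd_inv, h1, neg_mul, Finset.sum_neg_distrib, h]
  | mul f g hf hg =>
    simp only [map_mul, toAdd_mul, key, add_mul, Finset.sum_add_distrib, hf, hg]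

end Pool.Agent.Helper95_DC
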