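import Pool.Agent.Helper95_DC.Sys

set_option autoImplicit false

/-! Statement of the final assembly module of the measure-theoretic half. -/

namespace Pool.Agent.Helper95_DC

/-- MODULE FIN. Proof: let `G` be a monster, `X` the space of injective maps `G → [0,1]` with the
shift action (free, so all orbits are infinite), and take `Y`, `c`, `f : X → Y` from
`DynCompressible G`. Extend `f` to a measurable `f' : X0 G → Y` (default value outside `X`).
No `G`-invariant probability measure exists on `Y` (compression: split `Y` into the pieces where
`c` is a given group element). No positive measure set of `x` has `f' x` in one orbit (`f` is a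
reduction, orbits are countable, `(bX G).P` has no atoms).
Put `ψ j x = Stab (f' x) ⊔ V j`, `c g x` = first element (in an enumeration of `G`) moving `f' x`
to `f' (g x)`; `StabStatement` gives `x₀`, `γ`. Let `L j = Stab (f' x₀) ⊔ V j`,
`N = {g | ∀ j, g (L j) g⁻¹ = L j}`, `f₁ x = γ x • f' x`, so that `f₁ (g x) ∈ N • f₁ x` a.e.
If `N` has infinite index, its f.g. subgroups are finite (dichotomy) and `LocfStatement` gives a
contradiction. If `N` has finite index, let `M = ⨅ j, L j`. If `M` had finite index, the indices of
the `L j` would be bounded and `Stab (f' x₀)` of finite index (last filtration clause), impossible.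
So `M = ⊥` (radical) and `Stab (f' x) = ⊥` a.e.; on the invariant set of such `x` the unique
element moving `f' x` to `f' (g x)` is an exact cocycle (set it to `1` elsewhere), and
`SRStatement` gives `φ`, `π` with `f₂ x = (φ x)⁻¹ • f' x`, `f₂ (g x) = π g • f₂ x` a.e.
`π.range` is f.g., hence finite (contradiction by `LocfStatement`) or of finite index (then the
average over cosets of the image of the measure under `f₂` is a `G`-invariant probability
measure on `Y`, contradiction). -/
def FinStatement : Prop :=
  StabStatement → SRStatement → LocfStatement →
    ∀ (G : Type) [Group G], Monster G → ¬ DynCompressible G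

end Pool.Agent.Helper95_DC
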