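import Pool.Agent.Helper95_DC.Step
import Pool.Agent.Helper95_DC.StatFin
import Pool.Agent.Helper43_DC.Kaz
import Pool.Agent.Helper43_DC.Tors
import Pool.Agent.Helper38_DC.Rad
import Pool.Agent.Helper38_DC.FillKill
import Pool.Agent.Helper13_DC.Mix
import Pool.Agent.Helper13_DC.Path
import Pool.Agent.Helper14_DC.Chain
import Pool.Agent.Helper64_DC.Basic
import Pool.Agent.Helper94_DC.Gap
import Pool.Agent.Helper94_DC.SR
import Pool.Agent.Helper94_DC.Stab
import Pool.Agent.Helper94_DC.Locf
import Pool.Agent.Helper94_DC.Grp
import Pool.Agent.Helper83_DC.Quot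
import Pool.Agent.Helper83_DC.Stage
import Pool.Agent.Helper64_DC.Scale
import Pool.Agent.Helper55_DC.Fin

set_option autoImplicit false

/-!
Assembly of all modules.
-/

namespace Pool.Agent.Helper95_DC

theorem grp : GrpStatement := by
  have hscale : ScaleStatement := Helper64_DC.scale
  have hB := Helper64_DC.basic
  have hQ := quot
  have hF := Helper38_DC.fill hQ hB
  have hK := Helper38_DC.kill hQ hB pchain
  have hS : StageStatement := stage hB pchain (uchain step) hF hK hscale
  have hT : TorsStatement := Helper43_DC.tors hB hQ
  exact Helper94_DC.grp_of Helper43_DC.base hS hT hB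

/-- There is a countably infinite group which is not dynamically compressible. -/
theorem exists_not_dynCompressible :
    ∃ (G : Type) (_ : Group G), Countable G ∧ Infinite G ∧ ¬ DynCompressible G := by
  obtain ⟨G, _, hG⟩ := exists_monster Helper43_DC.kaz Helper38_DC.rad_statement grp
  exact ⟨G, inferInstance, hG.countable, hG.infinite,
    Helper55_DC.fin (Helper94_DC.stab_of mix pathStatement) (Helper94_DC.sr_of mix pathStatement)
      (Helper94_DC.locf_of mix) G hG⟩

end Pool.Agent.Helper95_DC
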