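import Pool.Agent.Helper95_DC.Subst

set_option autoImplicit false

/-!
Right independence of the Magnus series of `x ^ p` and of the iterated commutators
`[x, [x, ..., y]]`.
-/

namespace Pool.Agent.Helper95_DC

open NCP
open scoped commutatorElement

/-- Iterated commutators `⁅x, ⁅x, ... a⁆⁆`. -/
def cm {G : Type} [Group G] (x a : G) : ℕ → G
  | 0 => a
  | i + 1 => ⁅x, cm x a i⁆

variable {Y : Type} [DecidableEq Y] {p : ℕ}

/-- Iterated Lie brackets. -/
def lb (p : ℕ) (x y : Y) : ℕ → NCP p Y
  | 0 => X y
  | i + 1 => X x * lb p x y i - lb p x y i * X x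

theorem mg_commutator (f g : FreeGroup Y) :
    mg p ⁅f, g⁆ - 1 = ((mg p f - 1) * (mg p g - 1) - (mg p g - 1) * (mg p f - 1)) *
      (mg p f⁻¹ * mg p g⁻¹) := by
  have h1 : mg p f * mg p g * (mg p f⁻¹ * mg p g⁻¹) = mg p ⁅f, g⁆ := by
    rw [commutatorElement_def, mg_mul, mg_mul, mg_mul, mul_assoc, mul_assoc, mul_assoc]
  have h2 : mg p g * mg p f * (mg p f⁻¹ * mg p g⁻¹) = 1 := by
    rw [mul_assoc, ← mul_assoc (mg p f), mg_mul_inv, one_mul, mg_mul_inv]
  have h3 : (mg p f - 1) * (mg p g - 1) - (mg p g - 1) * (mg p f - 1) =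
      mg p f * mg p g - mg p g * mg p f := by noncomm_ring
  rw [h3, sub_mul, h1, h2]

theorem lb_ge (d : Y → ℕ) (x y : Y) (i : ℕ) : Ge d (d y + i * d x) (lb p x y i) := by
  induction i with
  | zero => simpa [lb] using ge_X (p := p) d y
  | succ i ih =>
    rw [lb]
    refine Ge.sub ?_ ?_
    · exact ((ge_X d x).mul ih).mono (by rw [Nat.succ_mul]; omega)
    · exact (ih.mul (ge_X d x)).mono (by rw [Nat.succ_mul]; omega)

theorem cm_sub_lb_ge {d : Y → ℕ} (hd : ∀ y, 0 < d y) (x y : Y) (i : ℕ) :
    Ge d (d y + i * d x + 1)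
      (mg p (cm (FreeGroup.of x) (FreeGroup.of y) i) - 1 - lb p x y i) := by
  induction i with
  | zero =>
    have : mg p (cm (FreeGroup.of x) (FreeGroup.of y) 0) - 1 - lb p x y 0 = 0 := by
      rw [cm, lb, mg_of]
      abel
    rw [this]
    exact ge_of_zero _
  | succ i ih =>
    set e := mg p (cm (FreeGroup.of x) (FreeGroup.of y) i) - 1 with he
    set L := lb p x y i with hL
    set u := mg p (FreeGroup.of x)⁻¹ * mg p (cm (FreeGroup.of x) (FreeGroup.of y) i)⁻¹ with hu
    have h1 : Ge d 1 (u - 1) := by
      have h2 : (FreeGroup.of x)⁻¹ * (cm (FreeGroup.of x) (FreeGroup.of y) i)⁻¹ ∈ D p d 1 := by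
        rw [D_one hd]; trivial
      rw [mem_D, mg_mul] at h2
      exact h2
    have h3 : mg p (cm (FreeGroup.of x) (FreeGroup.of y) (i + 1)) - 1 = (X x * e - e * X x) * u := by
      rw [cm, mg_commutator, mg_of, ← he, ← hu]
      congr 1
      simp
    rw [h3, lb, ← hL]
    have h4 : (X x * e - e * X x) * u - (X x * L - L * X x) =
        (X x * (e - L) - (e - L) * X x) * u + (X x * L - L * X x) * (u - 1) := by noncomm_ring
    rw [h4]
    have hLge := lb_ge (p := p) d x y i
    rw [← hL] at hLge
    have h5 : Ge d (d y + (i + 1) * d x) (X x * L - L * X x) := by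
      refine Ge.sub ?_ ?_
      · exact ((ge_X d x).mul hLge).mono (by rw [Nat.succ_mul]; omega)
      · exact (hLge.mul (ge_X d x)).mono (by rw [Nat.succ_mul]; omega)
    refine Ge.add (Ge.mul_right (Ge.sub ?_ ?_) _) (h5.mul h1)
    · exact ((ge_X d x).mul ih).mono (by rw [Nat.succ_mul]; omega)
    · exact (ih.mul (ge_X d x)).mono (by rw [Nat.succ_mul]; omega)

omit [DecidableEq Y] in
theorem iter_der_zero (x : Y) (k : ℕ) : (der x)^[k] (0 : NCP p Y) = 0 := by
  induction k with
  | zero => rfl
  | succ k ih => rw [Function.iterate_succ_apply', ih, der_zero]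

omit [DecidableEq Y] in
theorem iter_der_sub (x : Y) (k : ℕ) (a b : NCP p Y) :
    (der x)^[k] (a - b) = (der x)^[k] a - (der x)^[k] b := by
  induction k with
  | zero => rfl
  | succ k ih => rw [Function.iterate_succ_apply', ih, der_sub, Function.iterate_succ_apply',
      Function.iterate_succ_apply']

omit [DecidableEq Y] in
theorem iter_der_add (x : Y) (k : ℕ) (a b : NCP p Y) :
    (der x)^[k] (a + b) = (der x)^[k] a + (der x)^[k] b := by
  induction k with
  | zero => rfl
  | succ k ih => rw [Function.iterate_succ_apply', ih, der_add, Function.iterate_succ_apply',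
      Function.iterate_succ_apply']

omit [DecidableEq Y] in
theorem iter_der_sum {ι : Type} (x : Y) (k : ℕ) (s : Finset ι) (f : ι → NCP p Y) :
    (der x)^[k] (∑ i ∈ s, f i) = ∑ i ∈ s, (der x)^[k] (f i) := by
  classical
  induction s using Finset.induction_on with
  | empty => simp [iter_der_zero]
  | insert i s hi ih => rw [Finset.sum_insert hi, Finset.sum_insert hi, iter_der_add, ih]

omit [DecidableEq Y] in
theorem ge_iter_der {d : Y → ℕ} {m : ℕ} {a : NCP p Y} (x : Y) (k : ℕ) (ha : Ge d m a) :
    Ge d (m - k * d x) ((der x)^[k] a) := by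
  induction k with
  | zero => simpa using ha
  | succ k ih =>
    rw [Function.iterate_succ_apply', Nat.succ_mul, ← Nat.sub_sub]
    exact ih.der x

/-- The four properties of `der y ∘ (der x)^[k]` on `lb x y' i * h`. -/
theorem der_lb (d : Y → ℕ) {x : Y} (i : ℕ) :
    (∀ y y' (k : ℕ) (h : NCP p Y), y ≠ x → y' ≠ x → y ≠ y' →
      der y ((der x)^[k] (lb p x y' i * h)) = 0) ∧
    (∀ y (k : ℕ) (h : NCP p Y), y ≠ x → i < k → der y ((der x)^[k] (lb p x y i * h)) = 0) ∧
    (∀ y (h : NCP p Y), y ≠ x → der y ((der x)^[i] (lb p x y i * h)) = h) ∧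
    (∀ y (k m : ℕ) (h : NCP p Y), y ≠ x → k ≤ i → Ge d m h →
      Ge d (m + (i - k) * d x) (der y ((der x)^[k] (lb p x y i * h)))) := by
  induction i with
  | zero =>
    have hx0 : ∀ y' (h : NCP p Y), y' ≠ x → der x (X y' * h) = 0 := by
      intro y' h hy'
      rw [der_X_mul, if_neg (Ne.symm hy')]
    refine ⟨fun y y' k h hy hy' hyy => ?_, fun y k h hy hk => ?_, fun y h hy => ?_,
      fun y k m h hy hk hm => ?_⟩
    · rw [lb]
      cases k with
      | zero => rw [Function.iterate_zero_apply, der_X_mul, if_neg hyy]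
      | succ k => rw [Function.iterate_succ_apply, hx0 y' h hy', iter_der_zero, der_zero]
    · rw [lb]
      cases k with
      | zero => omega
      | succ k => rw [Function.iterate_succ_apply, hx0 y h hy, iter_der_zero, der_zero]
    · rw [lb, Function.iterate_zero_apply, der_X_mul, if_pos rfl]
    · have : k = 0 := by omega
      subst this
      rw [lb, Function.iterate_zero_apply, der_X_mul, if_pos rfl]
      simpa using hm
  | succ i ih =>
    obtain ⟨ih1, ih2, ih3, ih4⟩ := ih
    have hsplit : ∀ y' (h : NCP p Y), lb p x y' (i + 1) * h =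
        X x * (lb p x y' i * h) - lb p x y' i * (X x * h) := by
      intro y' h
      rw [lb, sub_mul, mul_assoc, mul_assoc]
    have hX0 : ∀ y (a : NCP p Y), y ≠ x → der y (X x * a) = 0 := by
      intro y a hy
      rw [der_X_mul, if_neg hy]
    have hXs : ∀ (k : ℕ) (a : NCP p Y), (der x)^[k + 1] (X x * a) = (der x)^[k] a := by
      intro k a
      rw [Function.iterate_succ_apply, der_X_mul, if_pos rfl]
    refine ⟨fun y y' k h hy hy' hyy => ?_, fun y k h hy hk => ?_, fun y h hy => ?_,
      fun y k m h hy hk hm => ?_⟩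
    · rw [hsplit, iter_der_sub, der_sub, ih1 y y' k _ hy hy' hyy, sub_zero]
      cases k with
      | zero => rw [Function.iterate_zero_apply, hX0 y _ hy]
      | succ k => rw [hXs, ih1 y y' k _ hy hy' hyy]
    · rw [hsplit, iter_der_sub, der_sub, ih2 y k _ hy (by omega), sub_zero]
      cases k with
      | zero => omega
      | succ k => rw [hXs, ih2 y k _ hy (by omega)]
    · rw [hsplit, iter_der_sub, der_sub, ih2 y (i + 1) _ hy (by omega), sub_zero, hXs,
        ih3 y _ hy]
    · rw [hsplit, iter_der_sub, der_sub]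
      refine Ge.sub ?_ ?_
      · cases k with
        | zero =>
          rw [Function.iterate_zero_apply, hX0 y _ hy]
          exact ge_of_zero _
        | succ k =>
          rw [hXs]
          have := ih4 y k m h hy (by omega) hm
          rwa [show i + 1 - (k + 1) = i - k by omega]
      · rcases Nat.lt_or_ge i k with hik | hik
        · rw [ih2 y k _ hy hik]
          exact ge_of_zero _
        · have := ih4 y k (d x + m) (X x * h) hy hik ((ge_X d x).mul hm)
          refine this.mono ?_
          rw [show i + 1 - k = (i - k) + 1 by omega, Nat.succ_mul]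
          omega

/-- The index type of the basis of the subgroup of index `p`. -/
abbrev Y₁ (p : ℕ) (x : Y) : Type := Option ({y : Y // y ≠ x} × Fin p)

/-- The leading forms. -/
def lform (p : ℕ) (x : Y) : Y₁ p x → NCP p Y
  | none => X x ^ p
  | some (y, i) => lb p x y.1 i

/-- The degrees. -/
def deg₁ (d : Y → ℕ) (x : Y) : Y₁ p x → ℕ
  | none => p * d x
  | some (y, i) => d y.1 + i * d x

theorem iter_der_X_pow (x : Y) (k n : ℕ) (a : NCP p Y) :
    (der x)^[k] (X x ^ (n + k) * a) = X x ^ n * a := by
  induction k with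
  | zero => rfl
  | succ k ih =>
    rw [Function.iterate_succ_apply, ← add_assoc, pow_succ', mul_assoc, der_X_mul, if_pos rfl, ih]

theorem rInd_lform [Fintype Y] (d : Y → ℕ) (x : Y) :
    RInd p d (deg₁ (p := p) d x) (lform p x) := by
  intro m h hF
  set F := ∑ y, lform p x y * h y with hFdef
  have hF' : F = X x ^ p * h none + ∑ q : {y : Y // y ≠ x} × Fin p,
      lb p x q.1.1 q.2 * h (some q) := by
    rw [hFdef, Fintype.sum_option]
    rfl
  -- the triangular system
  have key : ∀ (n : ℕ) (y : Y) (hy : y ≠ x) (k : Fin p), p ≤ k + n →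
      Ge d (m - (d y + k * d x)) (h (some (⟨y, hy⟩, k))) := by
    intro n
    induction n with
    | zero =>
      intro y hy k hk
      have := k.2
      omega
    | succ n ih =>
      intro y hy k hk
      have e1 : der y ((der x)^[(k : ℕ)] F) =
          ∑ i : Fin p, der y ((der x)^[(k : ℕ)] (lb p x y i * h (some (⟨y, hy⟩, i)))) := by
        rw [hF', iter_der_add, der_add, iter_der_sum, der_sum]
        have e2 : der y ((der x)^[(k : ℕ)] (X x ^ p * h none)) = 0 := by
          have e3 : p = (p - k) + k := by have := k.2; omega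
          rw [show X x ^ p * h none = X x ^ ((p - k) + k) * h none by rw [← e3], iter_der_X_pow]
          have e4 : p - (k : ℕ) = (p - k - 1) + 1 := by have := k.2; omega
          rw [e4, pow_succ', mul_assoc, der_X_mul, if_neg hy]
        rw [e2, zero_add, Fintype.sum_prod_type]
        rw [Finset.sum_eq_single (⟨y, hy⟩ : {y : Y // y ≠ x})]
        · intro y' _ hne
          refine Finset.sum_eq_zero (fun i _ => ?_)
          refine (der_lb (p := p) d i).1 y y'.1 k _ hy y'.2 ?_
          intro h'
          exact hne (Subtype.ext h'.symm)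
        · simp
      have e5 : h (some (⟨y, hy⟩, k)) = der y ((der x)^[(k : ℕ)] F) -
          ∑ i ∈ Finset.univ.erase k,
            der y ((der x)^[(k : ℕ)] (lb p x y i * h (some (⟨y, hy⟩, i)))) := by
        rw [e1, ← Finset.add_sum_erase _ _ (Finset.mem_univ k),
          (der_lb (p := p) d k).2.2.1 y _ hy]
        abel
      rw [e5]
      refine Ge.sub ?_ (Ge.sum _ _ (fun i hi => ?_))
      · have := (ge_iter_der x k hF).der y
        rwa [Nat.sub_sub, add_comm] at this
      · rcases Nat.lt_or_ge i.1 k.1 with hik | hik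
        · rw [(der_lb (p := p) d i).2.1 y k _ hy hik]
          exact ge_of_zero _
        · have hne : i ≠ k := Finset.ne_of_mem_erase hi
          have hlt : (k : ℕ) < i := lt_of_le_of_ne hik (fun h' => hne (Fin.ext h'.symm))
          have h1 := ih y hy i (by omega)
          have h2 := (der_lb (p := p) d i).2.2.2 y k _ _ hy hik h1
          refine h2.mono ?_
          have h3 : (i : ℕ) * d x = k * d x + (i - k) * d x := by
            rw [← add_mul]
            congr 1
            omega
          omega
  have hall : ∀ q : {y : Y // y ≠ x} × Fin p, Ge d (m - (d q.1.1 + q.2 * d x)) (h (some q)) := by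
    rintro ⟨⟨y, hy⟩, k⟩
    exact key p y hy k (by omega)
  intro y
  match y with
  | some q => exact hall q
  | none =>
    have e6 : X x ^ p * h none = F - ∑ q : {y : Y // y ≠ x} × Fin p,
        lb p x q.1.1 q.2 * h (some q) := by
      rw [hF']
      abel
    have h1 : Ge d m (X x ^ p * h none) := by
      rw [e6]
      refine hF.sub (Ge.sum _ _ (fun q _ => ?_))
      exact ((lb_ge (p := p) d x q.1.1 q.2).mul (hall q)).mono (by omega)
    have h2 := ge_iter_der x p h1
    have h3 := iter_der_X_pow x p 0 (h none)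
    rw [zero_add, pow_zero, one_mul] at h3
    rw [h3] at h2
    exact h2

/-- The basis elements of the subgroup of index `p`. -/
def bas (p : ℕ) (x : Y) : Y₁ p x → FreeGroup Y
  | none => FreeGroup.of x ^ p
  | some (y, i) => cm (FreeGroup.of x) (FreeGroup.of y.1) i

theorem rInd_bas [Fintype Y] [Fact p.Prime] {d : Y → ℕ} (hd : ∀ y, 0 < d y) (x : Y) :
    RInd p d (deg₁ (p := p) d x) (fun y => mg p (bas p x y) - 1) := by
  refine (rInd_lform d x).perturb (fun y => ?_)
  match y with
  | none =>
    have : mg p (bas p x none) - 1 - lform p x none = 0 := by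
      rw [bas, lform, mg_pow, mg_of, add_pow_char_of_commute]
      · simp
      · exact Commute.one_left _
    rw [this]
    exact ge_of_zero _
  | some (y, i) => exact cm_sub_lb_ge hd x y.1 i

theorem bas_mem_D [Fact p.Prime] {d : Y → ℕ} (x : Y) (y : Y₁ p x) :
    bas p x y ∈ D p d (deg₁ (p := p) d x y) := by
  have hx : ∀ z : Y, FreeGroup.of z ∈ D p d (d z) := by
    intro z
    rw [mem_D, mg_of]
    simpa using ge_X (p := p) d z
  match y with
  | none => exact pow_mem_D (hx x)
  | some (y, i) =>
    have : ∀ i : ℕ, cm (FreeGroup.of x) (FreeGroup.of y.1) i ∈ D p d (d y.1 + i * d x) := by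
      intro i
      induction i with
      | zero => simpa [cm] using hx y.1
      | succ i ih =>
        rw [cm]
        have := commutator_mem_D (hx x) ih
        rwa [show d x + (d y.1 + i * d x) = d y.1 + (i + 1) * d x by ring] at this
    exact this i

omit [DecidableEq Y] in
theorem deg₁_pos [Fact p.Prime] {d : Y → ℕ} (hd : ∀ y, 0 < d y) (x : Y) (y : Y₁ p x) :
    0 < deg₁ (p := p) d x y := by
  match y with
  | none => exact Nat.mul_pos (Fact.out : p.Prime).pos (hd x)
  | some (y, i) => exact Nat.add_pos_left (hd y.1) _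

end Pool.Agent.Helper95_DC
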