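import Mathlib

set_option autoImplicit false

/-!
Noncommutative formal power series over `ZMod p`, the Magnus embedding of a free group and the
weighted degree filtration.
-/

namespace Pool.Agent.Helper95_DC

/-- Noncommutative power series in the variables `Y` over `ZMod p`. -/
def NCP (p : ℕ) (Y : Type) : Type := List Y → ZMod p

namespace NCP

variable {p : ℕ} {Y : Type}

instance : AddCommGroup (NCP p Y) := inferInstanceAs (AddCommGroup (List Y → ZMod p))
instance : Module (ZMod p) (NCP p Y) := inferInstanceAs (Module (ZMod p) (List Y → ZMod p))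

@[ext] theorem ext {a b : NCP p Y} (h : ∀ w, a w = b w) : a = b := funext h

@[simp] theorem zero_apply (w : List Y) : (0 : NCP p Y) w = 0 := rfl
@[simp] theorem add_apply (a b : NCP p Y) (w : List Y) : (a + b) w = a w + b w := rfl
@[simp] theorem neg_apply (a : NCP p Y) (w : List Y) : (-a) w = -a w := rfl
@[simp] theorem sub_apply (a b : NCP p Y) (w : List Y) : (a - b) w = a w - b w := rfl
@[simp] theorem smul_apply (c : ZMod p) (a : NCP p Y) (w : List Y) : (c • a) w = c * a w := rfl

/-- Left derivation: coefficient extraction. -/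
def der (y : Y) (a : NCP p Y) : NCP p Y := fun w => a (y :: w)

@[simp] theorem der_apply (y : Y) (a : NCP p Y) (w : List Y) : der y a w = a (y :: w) := rfl
@[simp] theorem der_zero (y : Y) : der y (0 : NCP p Y) = 0 := rfl
theorem der_add (y : Y) (a b : NCP p Y) : der y (a + b) = der y a + der y b := rfl
theorem der_sub (y : Y) (a b : NCP p Y) : der y (a - b) = der y a - der y b := rfl
theorem der_neg (y : Y) (a : NCP p Y) : der y (-a) = -der y a := rfl
theorem der_smul (y : Y) (c : ZMod p) (a : NCP p Y) : der y (c • a) = c • der y a := rfl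

theorem ext_der {a b : NCP p Y} (h0 : a [] = b []) (h : ∀ y, der y a = der y b) : a = b := by
  funext w
  cases w with
  | nil => exact h0
  | cons y w => exact congrFun (h y) w

/-- Auxiliary function for the product. -/
def mulAux (b : NCP p Y) : List Y → NCP p Y → ZMod p
  | [], a => a [] * b []
  | y :: w, a => a [] * b (y :: w) + mulAux b w (der y a)

instance : Mul (NCP p Y) := ⟨fun a b w => mulAux b w a⟩

instance : One (NCP p Y) := ⟨fun w => match w with
  | [] => 1
  | _ :: _ => 0⟩

@[simp] theorem one_nil : (1 : NCP p Y) [] = 1 := rfl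
@[simp] theorem one_cons (y : Y) (w : List Y) : (1 : NCP p Y) (y :: w) = 0 := rfl
@[simp] theorem der_one (y : Y) : der y (1 : NCP p Y) = 0 := rfl

@[simp] theorem mul_nil (a b : NCP p Y) : (a * b) [] = a [] * b [] := rfl
theorem mul_cons (a b : NCP p Y) (y : Y) (w : List Y) :
    (a * b) (y :: w) = a [] * b (y :: w) + (der y a * b) w := rfl
theorem der_mul (y : Y) (a b : NCP p Y) : der y (a * b) = a [] • der y b + der y a * b := rfl

private theorem add_mul' (a b c : NCP p Y) : (a + b) * c = a * c + b * c := by
  funext w
  induction w generalizing a b with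
  | nil => simp [add_mul]
  | cons y w ih =>
    rw [mul_cons, der_add, ih]
    simp only [add_apply, mul_cons, add_mul]
    ring

private theorem mul_add' (a b c : NCP p Y) : a * (b + c) = a * b + a * c := by
  funext w
  induction w generalizing a with
  | nil => simp [mul_add]
  | cons y w ih =>
    rw [mul_cons, ih]
    simp only [add_apply, mul_cons, mul_add]
    ring

private theorem zero_mul' (a : NCP p Y) : 0 * a = 0 := by
  funext w
  induction w with
  | nil => simp
  | cons y w ih =>
    rw [mul_cons, der_zero, ih]
    simp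

private theorem mul_zero' (a : NCP p Y) : a * 0 = 0 := by
  funext w
  induction w generalizing a with
  | nil => simp
  | cons y w ih =>
    rw [mul_cons, ih]
    simp

private theorem one_mul' (a : NCP p Y) : 1 * a = a := by
  apply ext_der
  · simp
  · intro y
    rw [der_mul, der_one, zero_mul']
    simp

private theorem mul_one' (a : NCP p Y) : a * 1 = a := by
  funext w
  induction w generalizing a with
  | nil => simp
  | cons y w ih =>
    rw [mul_cons, ih]
    simp

private theorem smul_mul' (c : ZMod p) (a b : NCP p Y) : (c • a) * b = c • (a * b) := by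
  funext w
  induction w generalizing a with
  | nil => simp [mul_assoc]
  | cons y w ih =>
    rw [mul_cons, der_smul, ih]
    simp only [smul_apply, mul_cons]
    ring

private theorem mul_smul' (c : ZMod p) (a b : NCP p Y) : a * (c • b) = c • (a * b) := by
  funext w
  induction w generalizing a with
  | nil => simp; ring
  | cons y w ih =>
    rw [mul_cons, ih]
    simp only [smul_apply, mul_cons]
    ring

private theorem mul_assoc' (a b c : NCP p Y) : a * b * c = a * (b * c) := by
  funext w
  induction w generalizing a with
  | nil => simp [mul_assoc]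
  | cons y w ih =>
    rw [mul_cons, der_mul, add_mul', smul_mul']
    simp only [add_apply, smul_apply, mul_nil]
    rw [ih, mul_cons a, mul_cons b]
    ring

instance : Ring (NCP p Y) where
  __ := (inferInstance : AddCommGroup (NCP p Y))
  mul_assoc := mul_assoc'
  one_mul := one_mul'
  mul_one := mul_one'
  left_distrib := mul_add'
  right_distrib := add_mul'
  zero_mul := zero_mul'
  mul_zero := mul_zero'

instance : Algebra (ZMod p) (NCP p Y) :=
  Algebra.ofModule smul_mul' mul_smul'

/-- `Ge d m a`: all monomials of `a` have weighted degree at least `m`. -/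
def Ge (d : Y → ℕ) (m : ℕ) (a : NCP p Y) : Prop := ∀ w, (w.map d).sum < m → a w = 0

variable {d : Y → ℕ} {m n : ℕ} {a b : NCP p Y}

theorem Ge.mono (h : Ge d m a) (hn : n ≤ m) : Ge d n a := fun w hw => h w (hw.trans_le hn)

theorem ge_zero (a : NCP p Y) : Ge d 0 a := fun _ hw => absurd hw (Nat.not_lt_zero _)

theorem ge_of_zero (m : ℕ) : Ge d m (0 : NCP p Y) := fun _ _ => rfl

theorem Ge.add (ha : Ge d m a) (hb : Ge d m b) : Ge d m (a + b) := fun w hw => by
  rw [add_apply, ha w hw, hb w hw, add_zero]

theorem Ge.neg (ha : Ge d m a) : Ge d m (-a) := fun w hw => by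
  rw [neg_apply, ha w hw, neg_zero]

theorem Ge.sub (ha : Ge d m a) (hb : Ge d m b) : Ge d m (a - b) := fun w hw => by
  rw [sub_apply, ha w hw, hb w hw, sub_zero]

theorem Ge.smul (c : ZMod p) (ha : Ge d m a) : Ge d m (c • a) := fun w hw => by
  rw [smul_apply, ha w hw, mul_zero]

theorem Ge.sum {ι : Type} (s : Finset ι) (f : ι → NCP p Y) (h : ∀ i ∈ s, Ge d m (f i)) :
    Ge d m (∑ i ∈ s, f i) := by
  classical
  induction s using Finset.induction_on with
  | empty => exact ge_of_zero m
  | insert i s hi ih =>
    rw [Finset.sum_insert hi]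
    exact (h i (Finset.mem_insert_self i s)).add
      (ih (fun j hj => h j (Finset.mem_insert_of_mem hj)))

theorem sum_apply {ι : Type} (s : Finset ι) (f : ι → NCP p Y) (w : List Y) :
    (∑ i ∈ s, f i) w = ∑ i ∈ s, f i w := by
  classical
  induction s using Finset.induction_on with
  | empty => rfl
  | insert i s hi ih => rw [Finset.sum_insert hi, Finset.sum_insert hi, add_apply, ih]

theorem der_sum {ι : Type} (s : Finset ι) (f : ι → NCP p Y) (y : Y) :
    NCP.der y (∑ i ∈ s, f i) = ∑ i ∈ s, NCP.der y (f i) := by
  funext w
  rw [der_apply, sum_apply, sum_apply]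
  rfl

theorem Ge.der (y : Y) (ha : Ge d m a) : Ge d (m - d y) (NCP.der y a) := fun w hw => by
  rw [der_apply]
  apply ha
  rw [List.map_cons, List.sum_cons]
  omega

theorem Ge.mul (ha : Ge d m a) (hb : Ge d n b) : Ge d (m + n) (a * b) := by
  intro w hw
  induction w generalizing a m with
  | nil =>
    rw [mul_nil]
    by_cases hm : 0 < m
    · rw [ha [] (by simpa using hm), zero_mul]
    · rw [hb [] (by simp at hw ⊢; omega), mul_zero]
  | cons y w ih =>
    rw [mul_cons, ih (ha.der y)]
    · by_cases hm : 0 < m
      · rw [ha [] (by simpa using hm), zero_mul, add_zero]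
      · have : m = 0 := by omega
        subst this
        rw [hb (y :: w) (by simpa using hw), mul_zero, add_zero]
    · rw [List.map_cons, List.sum_cons] at hw
      omega

theorem Ge.mul_right (ha : Ge d m a) (b : NCP p Y) : Ge d m (a * b) := by
  have := ha.mul (ge_zero (d := d) b)
  simpa using this

theorem Ge.mul_left (a : NCP p Y) (hb : Ge d m b) : Ge d m (a * b) := by
  have := (ge_zero (d := d) a).mul hb
  simpa using this

theorem Ge.pow (ha : Ge d m a) (k : ℕ) : Ge d (k * m) (a ^ k) := by
  induction k with
  | zero => rw [zero_mul]; exact ge_zero _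
  | succ k ih =>
    rw [pow_succ, Nat.succ_mul]
    exact ih.mul ha

section X

variable [DecidableEq Y]

/-- The variable `y`. -/
def X (y : Y) : NCP p Y := fun w => match w with
  | [] => 0
  | [z] => if z = y then 1 else 0
  | _ :: _ :: _ => 0

@[simp] theorem X_nil (y : Y) : (X y : NCP p Y) [] = 0 := rfl

theorem der_X (y z : Y) : der z (X y : NCP p Y) = if z = y then 1 else 0 := by
  funext w
  cases w with
  | nil =>
    change (if z = y then (1 : ZMod p) else 0) = _
    split_ifs <;> rfl
  | cons u w =>
    change (0 : ZMod p) = _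
    split_ifs <;> rfl

@[simp] theorem der_X_mul (y z : Y) (a : NCP p Y) :
    der z (X y * a) = if z = y then a else 0 := by
  rw [der_mul, X_nil, der_X]
  split_ifs <;> simp

theorem ge_X (d : Y → ℕ) (y : Y) : Ge d (d y) (X y : NCP p Y) := by
  intro w hw
  match w with
  | [] => rfl
  | [z] =>
    change (if z = y then (1 : ZMod p) else 0) = 0
    rw [if_neg]
    rintro rfl
    simp at hw
  | _ :: _ :: _ => rfl

/-- Every series is its constant term plus a combination of the variables. -/
theorem eq_const_add_sum [Fintype Y] (a : NCP p Y) :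
    a = a [] • (1 : NCP p Y) + ∑ y, X y * der y a := by
  apply ext_der
  · simp [sum_apply]
  · intro z
    rw [der_add, der_smul, der_one, smul_zero, zero_add, der_sum]
    simp

/-- The inverse of `1 + X y`. -/
def invX (y : Y) : NCP p Y
  | [] => 1
  | z :: w => if z = y then -(invX y w) else 0

theorem invX_nil (y : Y) : (invX y : NCP p Y) [] = 1 := rfl

theorem der_invX (y z : Y) : der z (invX y : NCP p Y) = if z = y then -(invX y) else 0 := by
  funext w
  change (if z = y then -((invX y : NCP p Y) w) else 0) = _
  split_ifs <;> rfl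

theorem one_add_X_mul_invX (y : Y) : (1 + X y) * invX y = (1 : NCP p Y) := by
  apply ext_der
  · simp [invX_nil]
  · intro z
    rw [der_mul, der_add, der_X, der_invX, der_one]
    split_ifs <;> simp

theorem invX_mul_one_add_X (y : Y) : invX y * (1 + X y) = (1 : NCP p Y) := by
  funext w
  induction w with
  | nil => simp [invX_nil]
  | cons z w ih =>
    rw [mul_cons, invX_nil, der_invX]
    have h1 : (1 + X y : NCP p Y) (z :: w) = der z (1 + X y : NCP p Y) w := rfl
    rw [h1, der_add, der_X, der_one]
    split_ifs with h
    · rw [neg_mul, neg_apply, ih]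
      simp
    · simp

/-- The unit `1 + X y`. -/
def unitX (y : Y) : (NCP p Y)ˣ := ⟨1 + X y, invX y, one_add_X_mul_invX y, invX_mul_one_add_X y⟩

/-- The Magnus homomorphism. -/
def mag (p : ℕ) : FreeGroup Y →* (NCP p Y)ˣ := FreeGroup.lift unitX

@[simp] theorem mag_of (y : Y) : ((mag p (FreeGroup.of y) : (NCP p Y)ˣ) : NCP p Y) = 1 + X y := by
  rw [mag, FreeGroup.lift_apply_of]
  rfl

end X

end NCP

end Pool.Agent.Helper95_DC
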