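import Pool.Agent.Helper95_DC.StatGS

set_option autoImplicit false

/-!
Weighted presentations of subgroups modulo a normal subgroup, and the statements of the modules
of the group-theoretic half.

Everything happens inside one group `F` (a free group of rank `6`). The current group is `F / N`;
`V` is a subgroup containing `N`; `Fil` is a descending filtration by subgroups containing `N`.
-/

namespace Pool.Agent.Helper95_DC

open scoped commutatorElement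

/-- `V / N` has a presentation with generators `Y` of degrees `d`, relators `R i` of degrees at
least `e i`, inducing on `V` the filtration `Fil`, and weighted deficiency at least `b`. -/
def Pres {F : Type} [Group F] (p : ℕ) (t : ℝ) (N V : Subgroup F) (Fil : ℕ → Subgroup F)
    (b : ℝ) : Prop :=
  ∃ (Y : Type) (_ : Fintype Y) (_ : DecidableEq Y) (d : Y → ℕ) (φ : FreeGroup Y →* F)
    (ι : Type) (R : ι → FreeGroup Y) (e : ι → ℕ),
    (∀ y, 0 < d y) ∧ (∀ m, (D p d m).map φ ⊔ N = V ⊓ Fil m) ∧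
    N.comap φ = Subgroup.normalClosure (Set.range R) ∧ (∀ i, R i ∈ D p d (e i)) ∧
    Summable (fun i => t ^ e i) ∧ b + 1 + ∑' i, t ^ e i ≤ ∑ y, t ^ d y

/-- The factor `1 + t ^ α + ... + t ^ ((p - 1) α)`. -/
noncomputable def qf (p : ℕ) (t : ℝ) (α : ℕ) : ℝ := ∑ i ∈ Finset.range p, t ^ (i * α)

/-- Axioms of the filtration. -/
structure FilAx {F : Type} [Group F] (p : ℕ) (N : Subgroup F) (Fil : ℕ → Subgroup F) : Prop where
  anti : Antitone Fil
  N_le : ∀ m, N ≤ Fil m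
  comm : ∀ a b x y, x ∈ Fil a → y ∈ Fil b → ⁅x, y⁆ ∈ Fil (a + b)
  pow : ∀ a x, x ∈ Fil a → x ^ p ∈ Fil (p * a)

/-- The state of the construction. -/
structure State {F : Type} [Group F] (p : ℕ) (t : ℝ) (N V : Subgroup F) (Fil : ℕ → Subgroup F)
    (b : ℝ) : Prop where
  N_normal : N.Normal
  V_normal : V.Normal
  V_index : ∃ k, V.index = p ^ k
  Fil_normal : ∀ m, (Fil m).Normal
  Fil_le : ∀ m, Fil m ≤ V
  le_Fil : V ≤ Fil 0
  pres : Pres p t N V Fil b
  pos : 0 < b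

/-- A generating family of `P` modulo `N` of total weight at most `ω`. -/
def Gen {F : Type} [Group F] (t : ℝ) (N P : Subgroup F) (Fil : ℕ → Subgroup F) (ω : ℝ) : Prop :=
  ∃ (ι : Type) (_ : Fintype ι) (s : ι → F) (e : ι → ℕ),
    (∀ i, s i ∈ Fil (e i)) ∧ Subgroup.closure (Set.range s) ⊔ N = P ∧ ∑ i, t ^ e i ≤ ω

/-- MODULE STEP: the weighted Schreier formula for a normal subgroup of index `p`. -/
def StepStatement : Prop :=
  ∀ (p : ℕ) [Fact p.Prime] (t : ℝ), 0 < t → t < 1 →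
    ∀ (F : Type) [Group F] (N V V' : Subgroup F) (Fil : ℕ → Subgroup F) (b : ℝ) (α : ℕ)
      (χ : V →* Multiplicative (ZMod p)), N.Normal → Pres p t N V Fil b → N ≤ V' →
      V' = χ.ker.map V.subtype → ¬ V ⊓ Fil α ≤ V' → V ⊓ Fil (α + 1) ≤ V' →
      Pres p t N V' Fil (b * qf p t α)

/-- MODULE PSTEP: the same for generating families. -/
def PStepStatement : Prop :=
  ∀ (p : ℕ) [Fact p.Prime] (t : ℝ), 0 < t → t < 1 →
    ∀ (F : Type) [Group F] (N P P' : Subgroup F) (Fil : ℕ → Subgroup F) (ω : ℝ) (α : ℕ)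
      (χ : P →* Multiplicative (ZMod p)), N.Normal → FilAx p N Fil → Gen t N P Fil ω →
      N ≤ P' → P' = χ.ker.map P.subtype → χ ≠ 1 → P ≤ Fil α → P ⊓ Fil (α + 1) ≤ P' →
      Gen t N P' Fil (1 + (ω - 1) * qf p t α)

/-- MODULE PCHAIN: from level `m ≥ 1` to level `m + 1` for generating families. -/
def PChainStatement : Prop :=
  ∀ (p : ℕ) [Fact p.Prime] (t : ℝ), 0 < t → t < 1 →
    ∀ (F : Type) [Group F] (N P : Subgroup F) (Fil : ℕ → Subgroup F) (ω : ℝ) (m : ℕ), 0 < m →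
      N.Normal → N ≤ P → FilAx p N Fil → P ≤ Fil m → Gen t N P Fil ω →
      ∃ r : ℕ, (P ⊓ Fil (m + 1)).relIndex P = p ^ r ∧
        Gen t N (P ⊓ Fil (m + 1)) Fil (1 + (ω - 1) * qf p t m ^ r)

/-- MODULE UCHAIN: from level `m ≥ 1` to level `m + 1` for presentations. -/
def UChainStatement : Prop :=
  ∀ (p : ℕ) [Fact p.Prime] (t : ℝ), 0 < t → t < 1 →
    ∀ (F : Type) [Group F] (N V : Subgroup F) (Fil : ℕ → Subgroup F) (b : ℝ) (m : ℕ), 0 < m →
      N.Normal → FilAx p N Fil → 0 ≤ b → V ≤ Fil m → Fil (m + 1) ≤ V → Pres p t N V Fil b →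
      ∃ n : ℕ, (Fil (m + 1)).relIndex V = p ^ n ∧ Pres p t N (Fil (m + 1)) Fil (b * qf p t m ^ n)

/-- MODULE QUOT: adding relators. -/
def QuotStatement : Prop :=
  ∀ (p : ℕ) [Fact p.Prime] (t : ℝ), 0 < t → t < 1 →
    ∀ (F : Type) [Group F] (N V : Subgroup F) (Fil : ℕ → Subgroup F) (b : ℝ),
      State p t N V Fil b → ∀ (ι : Type) (T : ι → F) (e : ι → ℕ), (∀ i, T i ∈ Fil (e i)) →
      Summable (fun i => t ^ e i) → (V.index : ℝ) * ∑' i, t ^ e i < b →
      State p t (N ⊔ Subgroup.normalClosure (Set.range T)) V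
        (fun m => Fil m ⊔ (N ⊔ Subgroup.normalClosure (Set.range T)))
        (b - (V.index : ℝ) * ∑' i, t ^ e i)

/-- MODULE SCALE: adding `k` to the degrees of all generators. -/
def ScaleStatement : Prop :=
  ∀ (p : ℕ) [Fact p.Prime] (t : ℝ), 0 < t → t < 1 →
    ∀ (F : Type) [Group F] (N V : Subgroup F) (Fil : ℕ → Subgroup F) (b : ℝ) (k : ℕ),
      State p t N V Fil b → 0 < t ^ k * (b + 1) - 1 →
      ∃ Fil' : ℕ → Subgroup F, State p t N V Fil' (t ^ k * (b + 1) - 1) ∧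
        ∀ m, Fil m ≤ Fil' (m + k)

/-- MODULE BASIC: elementary consequences of `State`. -/
def BasicStatement : Prop :=
  ∀ (p : ℕ) [Fact p.Prime] (t : ℝ), 0 < t → t < 1 →
    ∀ (F : Type) [Group F] (N V : Subgroup F) (Fil : ℕ → Subgroup F) (b : ℝ),
      State p t N V Fil b →
      FilAx p N Fil ∧ Fil 0 = V ∧ Fil 1 = V ∧ (∀ m, ∃ k, (Fil m).index = p ^ k) ∧
      (∀ n : ℕ, ∃ m, n ≤ (Fil m).index) ∧
      (∀ M : Subgroup F, M.Normal → (∃ k, M.index = p ^ k) → N ≤ M → ∃ m, Fil m ≤ M)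

/-- MODULE FILL: if `P` is almost everything along the filtration, make `P` of finite index. -/
def FillStatement : Prop :=
  ∀ (p : ℕ) [Fact p.Prime] (t : ℝ), 0 < t → t < 1 →
    ∀ (F : Type) [Group F] (N V : Subgroup F) (Fil : ℕ → Subgroup F) (b : ℝ),
      State p t N V Fil b → ∀ (P : Subgroup F) (κ : ℕ → ℕ), N ≤ P →
      (∀ m, ((P ⊓ Fil m) ⊔ Fil (m + 1)).relIndex (Fil m) = p ^ κ m) →
      Summable (fun m => (κ m : ℝ) * t ^ m) → ∀ m₀ : ℕ,
      ∃ (N' : Subgroup F) (Fil' : ℕ → Subgroup F) (b' : ℝ), State p t N' V Fil' b' ∧ N ≤ N' ∧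
        N' ≤ Fil m₀ ∧ ∃ m, Fil m ≤ P ⊔ N'

/-- MODULE KILL: if `P` has a generating family of weight less than `1`, make `P` finite. -/
def KillStatement : Prop :=
  ∀ (p : ℕ) [Fact p.Prime] (t : ℝ), 0 < t → t < 1 →
    ∀ (F : Type) [Group F] (N V : Subgroup F) (Fil : ℕ → Subgroup F) (b : ℝ),
      State p t N V Fil b → ∀ (P : Subgroup F) (ω : ℝ), N ≤ P → P ≤ V → Gen t N P Fil ω →
      ω < 1 → ∀ m₀ : ℕ,
      ∃ (N' : Subgroup F) (Fil' : ℕ → Subgroup F) (b' : ℝ), State p t N' V Fil' b' ∧ N ≤ N' ∧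
        N' ≤ Fil m₀ ∧ ∃ m, P ⊓ Fil m ≤ N'

/-- MODULE STAGE: make one finitely generated subgroup finite or of finite index. -/
def StageStatement : Prop :=
  ∀ (p : ℕ) [Fact p.Prime] (t : ℝ), 0 < t → t < 1 →
    ∀ (F : Type) [Group F] (N V : Subgroup F) (Fil : ℕ → Subgroup F) (b : ℝ),
      State p t N V Fil b → ∀ (S : Finset F) (M : Subgroup F), M.Normal →
      (∃ k, M.index = p ^ k) → N ≤ M →
      ∃ (N' V' : Subgroup F) (Fil' : ℕ → Subgroup F) (b' : ℝ), State p t N' V' Fil' b' ∧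
        N ≤ N' ∧ N' ≤ M ∧ ((Subgroup.closure (S : Set F) ⊔ N').FiniteIndex ∨
          N'.relIndex (Subgroup.closure (S : Set F)) ≠ 0)

/-- MODULE TORS: make one element a torsion element. -/
def TorsStatement : Prop :=
  ∀ (p : ℕ) [Fact p.Prime] (t : ℝ), 0 < t → t < 1 →
    ∀ (F : Type) [Group F] (N V : Subgroup F) (Fil : ℕ → Subgroup F) (b : ℝ),
      State p t N V Fil b → ∀ (g : F) (M : Subgroup F), M.Normal → (∃ k, M.index = p ^ k) →
      N ≤ M → ∃ (N' : Subgroup F) (Fil' : ℕ → Subgroup F) (b' : ℝ), State p t N' V Fil' b' ∧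
        N ≤ N' ∧ N' ≤ M ∧ ∃ k, g ^ p ^ k ∈ N'

/-- MODULE BASE: the initial state. -/
def BaseStatement : Prop :=
  ∃ (N : Subgroup (FreeGroup (Fin 6))) (Fil : ℕ → Subgroup (FreeGroup (Fin 6))) (b : ℝ),
    State 29 (1 / 4) N ⊤ Fil b ∧ (∀ i : Fin 6, FreeGroup.of i ^ 29 ∈ N) ∧
    (∀ i j : Fin 6, ⁅⁅FreeGroup.of i, FreeGroup.of j⁆, FreeGroup.of i⁆ ∈ N) ∧
    (∀ i j : Fin 6, ⁅⁅FreeGroup.of i, FreeGroup.of j⁆, FreeGroup.of j⁆ ∈ N)

end Pool.Agent.Helper95_DC
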