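import Pool.Agent.Helper95_DC.Filt

set_option autoImplicit false

/-! Statement of the Golod-Shafarevich counting module. -/

namespace Pool.Agent.Helper95_DC

/-- MODULE GSC: weighted Golod-Shafarevich inequality. (Proof: `A = NCP p Y`,
`I` = two-sided ideal generated by the `mg p (R i) - 1`, `c m = dim A / (I + {a | Ge d (m+1) a})`.
Then `c m ≥ 1 + ∑_{y, d y ≤ m} c (m - d y) - ∑_{i, e i ≤ m} c (m - e i)`, because if
`∑ y, X y * a y ∈ I + Ge (m+1)` then `a y ≡ ∑ i, der y (mg p (R i) - 1) * b i` modulo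
`I + Ge (m + 1 - d y)`. If `c` were bounded, multiply by `t ^ m` and sum over `m`. Finally `c m` is at
most the index, since `A / (I + Ge (m+1))` is spanned by the images of the `mg p f`.) -/
def GSCStatement : Prop :=
  ∀ (p : ℕ) [Fact p.Prime] (Y : Type) [Fintype Y] [DecidableEq Y] (d : Y → ℕ), (∀ y, 0 < d y) →
    ∀ (ι : Type) (R : ι → FreeGroup Y) (e : ι → ℕ), (∀ i, R i ∈ D p d (e i)) →
      ∀ t : ℝ, 0 < t → t < 1 → Summable (fun i => t ^ e i) →
        1 + ∑' i, t ^ e i ≤ ∑ y, t ^ d y →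
        ∀ n : ℕ, ∃ m, n ≤ (Subgroup.normalClosure (Set.range R) ⊔ D p d m).index

end Pool.Agent.Helper95_DC
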