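import Pool.Agent.Helper95_DC.Basis
import Pool.Agent.Helper95_DC.Pres

set_option autoImplicit false

/-!
The weighted Schreier step.
-/

namespace Pool.Agent.Helper95_DC

open scoped commutatorElement

variable {Y : Type} [DecidableEq Y] {p : ℕ} [Fact p.Prime]

omit [Fact p.Prime] in
theorem of_mem_D (d : Y → ℕ) (z : Y) : FreeGroup.of z ∈ D p d (d z) := by
  rw [mem_D, mg_of]
  simpa using NCP.ge_X (p := p) d z

theorem comm_eq_one {A : Type} [CommGroup A] (a b : A) : ⁅a, b⁆ = 1 := by
  rw [commutatorElement_eq_one_iff_mul_comm, mul_comm]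

omit [DecidableEq Y] in
theorem conj_mem_of_mem (x : Y) :
    FreeGroup.of x ∈ Subgroup.normalizer
      ((FreeGroup.lift (bas p x)).range : Set (FreeGroup Y)) := by
  have hp := (Fact.out : p.Prime).pos
  set H := (FreeGroup.lift (bas p x)).range with hH
  have hbas : ∀ z, bas p x z ∈ H := fun z => ⟨FreeGroup.of z, by simp⟩
  have hcl : H = Subgroup.closure (Set.range (bas p x)) := FreeGroup.range_lift_eq_closure
  have hxp : FreeGroup.of x ^ p ∈ H := hbas none
  have hc : ∀ (y : {y : Y // y ≠ x}) (i : ℕ), i < p →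
      cm (FreeGroup.of x) (FreeGroup.of y.1) i ∈ H := fun y i hi => hbas (some (y, ⟨i, hi⟩))
  have hcp : ∀ (y : {y : Y // y ≠ x}), cm (FreeGroup.of x) (FreeGroup.of y.1) p ∈ H := by
    intro y
    refine cm_mem_of H _ _ p (fun i hi => hc y i hi) ?_
    exact H.mul_mem (H.mul_mem hxp (hc y 0 hp)) (H.inv_mem hxp)
  rw [Subgroup.mem_normalizer_iff]
  refine mem_normalizer_of H _ p hp ?_ ?_
  · intro k hk
    have : H ≤ H.comap (MulAut.conj (FreeGroup.of x)).toMonoidHom := by
      conv_lhs => rw [hcl]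
      rw [Subgroup.closure_le]
      rintro _ ⟨z, rfl⟩
      rw [SetLike.mem_coe, Subgroup.mem_comap]
      match z with
      | none =>
        have : (MulAut.conj (FreeGroup.of x)).toMonoidHom (bas p x none) = FreeGroup.of x ^ p := by
          simp only [bas, MulEquiv.toMonoidHom_eq_coe, MonoidHom.coe_coe, MulAut.conj_apply]
          rw [(Commute.pow_right (Commute.refl _) p).eq]
          group
        rw [this]
        exact hxp
      | some (y, i) =>
        rw [bas, conj_cm]
        refine H.mul_mem ?_ (hc y i i.2)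
        rcases Nat.lt_or_ge (i.1 + 1) p with h | h
        · exact hc y _ h
        · have : i.1 + 1 = p := by have := i.2; omega
          rw [this]
          exact hcp y
    exact this hk
  · intro k hk
    exact H.mul_mem (H.mul_mem (H.inv_mem hxp) hk) hxp

theorem range_lift_bas (x : Y) (χ : FreeGroup Y →* Multiplicative (ZMod p))
    (h1 : ∀ y, y ≠ x → χ (FreeGroup.of y) = 1) (hx : χ (FreeGroup.of x) ≠ 1) :
    (FreeGroup.lift (bas p x)).range = χ.ker := by
  have hp := (Fact.out : p.Prime).pos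
  have hN := conj_mem_of_mem (p := p) x
  apply le_antisymm
  · rw [FreeGroup.range_lift_eq_closure, Subgroup.closure_le]
    rintro _ ⟨z, rfl⟩
    rw [SetLike.mem_coe, MonoidHom.mem_ker]
    match z with
    | none =>
      rw [bas, map_pow]
      apply Multiplicative.toAdd.injective
      rw [toAdd_pow, toAdd_one]
      simp
    | some (y, ⟨i, hi⟩) =>
      rw [bas]
      cases i with
      | zero => exact h1 y.1 y.2
      | succ i =>
        simp only [cm]
        rw [map_commutatorElement, comm_eq_one]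
  · set H := (FreeGroup.lift (bas p x)).range with hH
    have hbas : ∀ z, bas p x z ∈ H := fun z => ⟨FreeGroup.of z, by simp⟩
    have hxp : FreeGroup.of x ^ p ∈ H := hbas none
    have hle : H ≤ χ.ker := by
      rw [hH, FreeGroup.range_lift_eq_closure, Subgroup.closure_le]
      rintro _ ⟨z, rfl⟩
      rw [SetLike.mem_coe, MonoidHom.mem_ker]
      match z with
      | none =>
        rw [bas, map_pow]
        apply Multiplicative.toAdd.injective
        rw [toAdd_pow, toAdd_one]
        simp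
      | some (y, ⟨i, hi⟩) =>
        rw [bas]
        cases i with
        | zero => exact h1 y.1 y.2
        | succ i =>
          simp only [cm]
          rw [map_commutatorElement, comm_eq_one]
    have key : ∀ f : FreeGroup Y, ∃ n : ℤ, f * FreeGroup.of x ^ n ∈ H := by
      intro f
      induction f using FreeGroup.induction_on with
      | C1 => exact ⟨0, by simp⟩
      | of y =>
        by_cases hy : y = x
        · subst hy
          exact ⟨-1, by simp⟩
        · exact ⟨0, by simpa [bas, cm] using hbas (some (⟨y, hy⟩, ⟨0, hp⟩))⟩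
      | inv_of y _ =>
        by_cases hy : y = x
        · subst hy
          exact ⟨1, by simp⟩
        · exact ⟨0, by simpa [bas, cm] using H.inv_mem (hbas (some (⟨y, hy⟩, ⟨0, hp⟩)))⟩
      | mul f g hf hg =>
        obtain ⟨n, hn⟩ := hf
        obtain ⟨m, hm⟩ := hg
        refine ⟨m + n, ?_⟩
        have h2 := (Subgroup.mem_normalizer_iff.mp
          ((Subgroup.normalizer (H : Set (FreeGroup Y))).zpow_mem hN (-n)) _).mp hm
        have e : f * g * FreeGroup.of x ^ (m + n) = f * FreeGroup.of x ^ n *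
            (FreeGroup.of x ^ (-n) * (g * FreeGroup.of x ^ m) * (FreeGroup.of x ^ (-n))⁻¹) := by
          rw [zpow_add]; group
        rw [e]
        exact H.mul_mem hn h2
    intro f hf
    obtain ⟨n, hn⟩ := key f
    have h2 : χ (FreeGroup.of x) ^ n = 1 := by
      have := hle hn
      rw [MonoidHom.mem_ker, map_mul, MonoidHom.mem_ker.mp hf, one_mul, map_zpow] at this
      exact this
    have h3 : (p : ℤ) ∣ n := by
      have h4 := congrArg Multiplicative.toAdd h2
      rw [toAdd_zpow, toAdd_one, zsmul_eq_mul, mul_eq_zero] at h4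
      rcases h4 with h4 | h4
      · exact (ZMod.intCast_zmod_eq_zero_iff_dvd n p).mp h4
      · exact absurd (Multiplicative.toAdd.injective h4) hx
    obtain ⟨m, rfl⟩ := h3
    have h4 : FreeGroup.of x ^ ((p : ℤ) * m) ∈ H := by
      rw [zpow_mul, zpow_natCast]
      exact H.zpow_mem hxp m
    have := H.mul_mem hn (H.inv_mem h4)
    rwa [mul_inv_cancel_right] at this

theorem cm_mem_normal {G : Type} [Group G] (K : Subgroup G) [K.Normal] (x a : G) (ha : a ∈ K)
    (i : ℕ) : cm x a i ∈ K := by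
  induction i with
  | zero => exact ha
  | succ i ih =>
    rw [cm, commutatorElement_def]
    exact K.mul_mem (Subgroup.Normal.conj_mem inferInstance _ ih x) (K.inv_mem ih)

theorem map_normalClosure_bas (x : Y) {ι : Type} (R : ι → FreeGroup Y)
    (R' : ι × Fin p → FreeGroup (Y₁ p x))
    (hR' : ∀ l i, FreeGroup.lift (bas p x) (R' (l, i)) = cm (FreeGroup.of x) (R l) i) :
    (Subgroup.normalClosure (Set.range R')).map (FreeGroup.lift (bas p x)) =
      Subgroup.normalClosure (Set.range R) := by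
  have hp := (Fact.out : p.Prime).pos
  set Φ := FreeGroup.lift (bas p x) with hΦ
  set K := (Subgroup.normalClosure (Set.range R')).map Φ with hK
  have hN : FreeGroup.of x ∈ Subgroup.normalizer (Φ.range : Set (FreeGroup Y)) :=
    conj_mem_of_mem (p := p) x
  have hHK : ∀ h ∈ Φ.range, ∀ k ∈ K, h * k * h⁻¹ ∈ K := by
    rintro _ ⟨g, rfl⟩ _ ⟨k, hk, rfl⟩
    refine ⟨g * k * g⁻¹, ?_, by simp⟩
    exact Subgroup.Normal.conj_mem inferInstance _ hk g
  have hcK : ∀ l (i : ℕ), i < p → cm (FreeGroup.of x) (R l) i ∈ K := by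
    intro l i hi
    exact ⟨R' (l, ⟨i, hi⟩), Subgroup.subset_normalClosure ⟨_, rfl⟩, hR' l ⟨i, hi⟩⟩
  have hxp : FreeGroup.of x ^ p ∈ Φ.range := ⟨FreeGroup.of none, by simp [hΦ, bas]⟩
  have hcp : ∀ l, cm (FreeGroup.of x) (R l) p ∈ K := by
    intro l
    refine cm_mem_of K _ _ p (fun i hi => hcK l i hi) ?_
    exact hHK _ hxp _ (hcK l 0 hp)
  have h1 : ∀ k ∈ K, FreeGroup.of x * k * (FreeGroup.of x)⁻¹ ∈ K := by
    rintro _ ⟨k, hk, rfl⟩
    let L : Subgroup (FreeGroup (Y₁ p x)) :=
      (K.comap (MulAut.conj (FreeGroup.of x)).toMonoidHom).comap Φ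
    have hL : ∀ f, f ∈ L ↔ FreeGroup.of x * Φ f * (FreeGroup.of x)⁻¹ ∈ K := fun f => Iff.rfl
    have hLn : L.Normal := by
      refine ⟨fun f hf g => ?_⟩
      rw [hL] at hf ⊢
      have h2 : FreeGroup.of x * Φ g * (FreeGroup.of x)⁻¹ ∈ Φ.range :=
        (Subgroup.mem_normalizer_iff.mp hN (Φ g)).mp (MonoidHom.mem_range.mpr ⟨g, rfl⟩)
      have h3 := hHK _ h2 _ hf
      have e : FreeGroup.of x * Φ g * (FreeGroup.of x)⁻¹ *
          (FreeGroup.of x * Φ f * (FreeGroup.of x)⁻¹) *
          (FreeGroup.of x * Φ g * (FreeGroup.of x)⁻¹)⁻¹ =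
          FreeGroup.of x * Φ (g * f * g⁻¹) * (FreeGroup.of x)⁻¹ := by
        rw [map_mul, map_mul, map_inv]; group
      rwa [e] at h3
    have hle : Subgroup.normalClosure (Set.range R') ≤ L := by
      refine Subgroup.normalClosure_le_normal ?_
      rintro _ ⟨⟨l, i⟩, rfl⟩
      rw [SetLike.mem_coe, hL, hR']
      have e := conj_cm (FreeGroup.of x) (R l) i
      simp only [MulEquiv.toMonoidHom_eq_coe, MonoidHom.coe_coe, MulAut.conj_apply] at e
      rw [e]
      refine K.mul_mem ?_ (hcK l i i.2)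
      rcases Nat.lt_or_ge (i.1 + 1) p with h | h
      · exact hcK l _ h
      · have : i.1 + 1 = p := by have := i.2; omega
        rw [this]
        exact hcp l
    exact (hL k).mp (hle hk)
  have h2 : ∀ k ∈ K, (FreeGroup.of x ^ p)⁻¹ * k * FreeGroup.of x ^ p ∈ K := by
    intro k hk
    have := hHK _ (Φ.range.inv_mem hxp) k hk
    rwa [inv_inv] at this
  have hxK : FreeGroup.of x ∈ Subgroup.normalizer (K : Set (FreeGroup Y)) := by
    rw [Subgroup.mem_normalizer_iff]
    exact mem_normalizer_of K _ p hp h1 h2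
  have hKn : K.Normal := by
    rw [← Subgroup.normalizer_eq_top_iff, eq_top_iff, ← FreeGroup.closure_range_of,
      Subgroup.closure_le]
    rintro _ ⟨y, rfl⟩
    by_cases hy : y = x
    · subst hy
      exact hxK
    · have hyH : FreeGroup.of y ∈ Φ.range :=
        ⟨FreeGroup.of (some (⟨y, hy⟩, ⟨0, hp⟩)), by simp [hΦ, bas, cm]⟩
      rw [SetLike.mem_coe, Subgroup.mem_normalizer_iff]
      intro k
      refine ⟨hHK _ hyH k, fun h => ?_⟩
      have := hHK _ (Φ.range.inv_mem hyH) _ h
      have e : (FreeGroup.of y)⁻¹ * (FreeGroup.of y * k * (FreeGroup.of y)⁻¹) *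
        ((FreeGroup.of y)⁻¹)⁻¹ = k := by group
      rwa [e] at this
  apply le_antisymm
  · rw [hK, Subgroup.map_le_iff_le_comap]
    have : ((Subgroup.normalClosure (Set.range R)).comap Φ).Normal := inferInstance
    refine Subgroup.normalClosure_le_normal ?_
    rintro _ ⟨⟨l, i⟩, rfl⟩
    rw [SetLike.mem_coe, Subgroup.mem_comap, hR']
    exact cm_mem_normal _ _ _ (Subgroup.subset_normalClosure (Set.mem_range_self l)) _
  · refine Subgroup.normalClosure_le_normal ?_
    rintro _ ⟨l, rfl⟩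
    exact hcK l 0 hp

theorem qf_nonneg (p : ℕ) {t : ℝ} (ht : 0 < t) (α : ℕ) : 0 ≤ qf p t α :=
  Finset.sum_nonneg (fun i _ => by positivity)

omit [Fact p.Prime] in
theorem sum_deg₁ [Fintype Y] (t : ℝ) (d : Y → ℕ) (x : Y) :
    ∑ y : Y₁ p x, t ^ deg₁ (p := p) d x y = 1 + (∑ y, t ^ d y - 1) * qf p t (d x) := by
  have h1 : ∑ y : Y, t ^ d y = t ^ d x + ∑ y : {y : Y // y ≠ x}, t ^ d y.1 := by
    rw [← Finset.add_sum_erase _ _ (Finset.mem_univ x)]
    congr 1
    rw [← Finset.sum_subtype (p := fun y => y ≠ x) (Finset.univ.erase x) (by simp)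
      (fun y => t ^ d y)]
  have h2 : ∑ q : {y : Y // y ≠ x} × Fin p, t ^ (d q.1.1 + q.2 * d x) =
      (∑ y : {y : Y // y ≠ x}, t ^ d y.1) * qf p t (d x) := by
    rw [Fintype.sum_prod_type, Finset.sum_mul]
    refine Finset.sum_congr rfl (fun y _ => ?_)
    rw [qf, Finset.mul_sum, ← Fin.sum_univ_eq_sum_range (fun i => t ^ d y.1 * t ^ (i * d x)) p]
    refine Finset.sum_congr rfl (fun i _ => ?_)
    rw [pow_add]
  have h3 : (qf p t (d x)) * (t ^ d x - 1) = t ^ (p * d x) - 1 := by
    rw [qf]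
    have := geom_sum_mul (t ^ d x) p
    rw [← pow_mul, mul_comm (d x)] at this
    rw [← this]
    congr 1
    refine Finset.sum_congr rfl (fun i _ => ?_)
    rw [← pow_mul, mul_comm]
  rw [Fintype.sum_option]
  change t ^ (p * d x) + ∑ q : {y : Y // y ≠ x} × Fin p, t ^ (d q.1.1 + q.2 * d x) = _
  rw [h2, h1]
  linear_combination -h3

/-- The step for a presentation where only one generator is not in the kernel. -/
theorem step_core {F : Type} [Group F] (t : ℝ) (ht : 0 < t) (N V V' : Subgroup F)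
    (Fil : ℕ → Subgroup F) (b : ℝ) [N.Normal] (hNV' : N ≤ V')
    [Fintype Y] (d : Y → ℕ) (φ : FreeGroup Y →* F)
    {ι : Type} (R : ι → FreeGroup Y) (e : ι → ℕ)
    (hd : ∀ y, 0 < d y) (hmap : ∀ m, (D p d m).map φ ⊔ N = V ⊓ Fil m)
    (hcomap : N.comap φ = Subgroup.normalClosure (Set.range R)) (hR : ∀ i, R i ∈ D p d (e i))
    (hs : Summable (fun i => t ^ e i)) (hb : b + 1 + ∑' i, t ^ e i ≤ ∑ y, t ^ d y)
    (x : Y) (χ : FreeGroup Y →* Multiplicative (ZMod p)) (hχ : ∀ f, χ f = 1 ↔ φ f ∈ V')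
    (h1 : ∀ y, y ≠ x → χ (FreeGroup.of y) = 1) (hx : χ (FreeGroup.of x) ≠ 1) (hV' : V' ≤ V) :
    Pres p t N V' Fil (b * qf p t (d x)) := by
  have hp := (Fact.out : p.Prime).pos
  set Φ := FreeGroup.lift (bas p x) with hΦ
  have hran : Φ.range = χ.ker := range_lift_bas x χ h1 hx
  have hinj : Function.Injective Φ := lift_bas_injective x
  have hdeg : ∀ z : Y₁ p x, 0 < deg₁ (p := p) d x z := deg₁_pos hd x
  have hD1 : ∀ m (f : FreeGroup (Y₁ p x)), f ∈ D p (deg₁ (p := p) d x) m → Φ f ∈ D p d m := by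
    intro m f hf
    refine map_mem_D hdeg Φ (fun y => ?_) hf
    rw [hΦ, FreeGroup.lift_apply_of]
    exact bas_mem_D x y
  have hD2 : ∀ m (f : FreeGroup (Y₁ p x)), Φ f ∈ D p d m → f ∈ D p (deg₁ (p := p) d x) m := by
    intro m f hf
    refine mem_D_of_map_mem hdeg Φ ?_ hf
    have := rInd_bas (p := p) hd x
    simpa [hΦ] using this
  have hRker : ∀ l, R l ∈ χ.ker := by
    intro l
    rw [MonoidHom.mem_ker, hχ]
    apply hNV'
    have : R l ∈ N.comap φ := by
      rw [hcomap]
      exact Subgroup.subset_normalClosure ⟨l, rfl⟩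
    exact this
  have hcm : ∀ (l : ι) (i : Fin p), ∃ f : FreeGroup (Y₁ p x),
      Φ f = cm (FreeGroup.of x) (R l) i := by
    intro l i
    have : cm (FreeGroup.of x) (R l) i ∈ Φ.range := by
      rw [hran]
      exact cm_mem_normal _ _ _ (hRker l) _
    exact this
  choose R' hR' using hcm
  have hcomap' : N.comap (φ.comp Φ) =
      Subgroup.normalClosure (Set.range (fun q : ι × Fin p => R' q.1 q.2)) := by
    have h2 := map_normalClosure_bas x R (fun q : ι × Fin p => R' q.1 q.2) (fun l i => hR' l i)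
    rw [← Subgroup.comap_comap, hcomap, ← h2, Subgroup.comap_map_eq_self_of_injective hinj]
  refine ⟨Y₁ p x, inferInstance, inferInstance, deg₁ (p := p) d x, φ.comp Φ, ι × Fin p,
    fun q => R' q.1 q.2, fun q => e q.1 + q.2 * d x, hdeg, ?_, hcomap', ?_, ?_, ?_⟩
  · intro m
    apply le_antisymm
    · rw [sup_le_iff]
      constructor
      · rintro _ ⟨f, hf, rfl⟩
        rw [MonoidHom.comp_apply]
        refine ⟨?_, ?_⟩
        · have : Φ f ∈ χ.ker := by rw [← hran]; exact ⟨f, rfl⟩
          exact (hχ _).mp this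
        · have : φ (Φ f) ∈ V ⊓ Fil m := by
            rw [← hmap m]
            exact Subgroup.mem_sup_left ⟨Φ f, hD1 m f hf, rfl⟩
          exact this.2
      · intro n hn
        have : n ∈ V ⊓ Fil m := by
          rw [← hmap m]
          exact Subgroup.mem_sup_right hn
        exact ⟨hNV' hn, this.2⟩
    · rintro v ⟨hv, hvm⟩
      have h2 : v ∈ (D p d m).map φ ⊔ N := by
        rw [hmap m]
        exact ⟨hV' hv, hvm⟩
      rw [Subgroup.mem_sup_of_normal_right] at h2
      obtain ⟨_, ⟨f, hf, rfl⟩, n, hn, rfl⟩ := h2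
      have h3 : φ f ∈ V' := by
        have := V'.mul_mem hv (V'.inv_mem (hNV' hn))
        rwa [mul_inv_cancel_right] at this
      have h4 : f ∈ Φ.range := by
        rw [hran]
        exact (hχ f).mpr h3
      obtain ⟨g, rfl⟩ := h4
      exact Subgroup.mul_mem_sup ⟨g, hD2 m g hf, rfl⟩ hn
  · rintro ⟨l, i⟩
    refine hD2 _ _ ?_
    simp only
    rw [hR']
    have : ∀ i : ℕ, cm (FreeGroup.of x) (R l) i ∈ D p d (e l + i * d x) := by
      intro i
      induction i with
      | zero => simpa [cm] using hR l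
      | succ i ih =>
        rw [cm]
        have := commutator_mem_D (of_mem_D (p := p) d x) ih
        rwa [show d x + (e l + i * d x) = e l + (i + 1) * d x by ring] at this
    exact this i
  · have h2 := hs.mul_of_nonneg (Summable.of_finite (f := fun i : Fin p => t ^ ((i : ℕ) * d x)))
      (fun l => by positivity) (fun i => by positivity)
    simpa [pow_add] using h2
  · have h2 : ∑' q : ι × Fin p, t ^ (e q.1 + q.2 * d x) = (∑' l, t ^ e l) * qf p t (d x) := by
      have h3 : qf p t (d x) = ∑' i : Fin p, t ^ ((i : ℕ) * d x) := by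
        rw [tsum_fintype, qf, ← Fin.sum_univ_eq_sum_range (fun i => t ^ (i * d x)) p]
      rw [h3, tsum_mul_tsum_of_summable_norm]
      · simp only [pow_add]
      · simpa [abs_of_pos ht] using hs
      · exact Summable.of_finite
    rw [h2, sum_deg₁]
    have h3 := mul_le_mul_of_nonneg_right hb (qf_nonneg p ht (d x))
    linarith

/-- MODULE STEP. -/
theorem step : StepStatement := by
  intro p _ t ht ht1 F _ N V V' Fil b α χ hN hPres hNV' hV' hα hα1
  obtain ⟨Y, _, _, d, φ, ι, R, e, hd, hmap, hcomap, hR, hs, hb⟩ := hPres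
  have hφ : ∀ m, ∀ f ∈ D p d m, φ f ∈ V ⊓ Fil m := by
    intro m f hf
    rw [← hmap m]
    exact Subgroup.mem_sup_left ⟨f, hf, rfl⟩
  have hφV : ∀ f, φ f ∈ V := fun f => (hφ 0 f (by rw [D_zero]; trivial)).1
  let χ₁ : FreeGroup Y →* Multiplicative (ZMod p) := χ.comp (φ.codRestrict V hφV)
  have hV'mem : ∀ v (hv : v ∈ V), v ∈ V' ↔ χ ⟨v, hv⟩ = 1 := by
    intro v hv
    rw [hV']
    constructor
    · rintro ⟨⟨w, hw⟩, hw1, rfl⟩
      exact hw1
    · intro h
      exact ⟨⟨v, hv⟩, h, rfl⟩
  have hV'le : V' ≤ V := by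
    rw [hV']
    rintro _ ⟨⟨w, hw⟩, hw1, rfl⟩
    exact hw
  have hχ₁ : ∀ f, χ₁ f = 1 ↔ φ f ∈ V' := fun f => (hV'mem _ (hφV f)).symm
  -- an element of degree at least `α`
  have hex : ∃ y, α ≤ d y ∧ χ₁ (FreeGroup.of y) ≠ 1 := by
    rw [SetLike.not_le_iff_exists] at hα
    obtain ⟨v, hv, hvV'⟩ := hα
    rw [← hmap α, Subgroup.mem_sup_of_normal_right] at hv
    obtain ⟨_, ⟨f, hf, rfl⟩, n, hn, rfl⟩ := hv
    have h1 : χ₁ f ≠ 1 := by
      intro h
      exact hvV' (V'.mul_mem ((hχ₁ f).mp h) (hNV' hn))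
    have h2 := hom_eq_sum χ₁ f
    by_contra hcon
    push Not at hcon
    apply h1
    apply Multiplicative.toAdd.injective
    rw [h2, toAdd_one]
    refine Finset.sum_eq_zero (fun y _ => ?_)
    by_cases hy : α ≤ d y
    · rw [hcon y hy, toAdd_one, mul_zero]
    · have h3 : (mg p f - 1) [y] = 0 := by
        apply (mem_D.mp hf)
        simpa using hy
      have h4 : mg p f [y] = 0 := by
        rw [NCP.sub_apply, NCP.one_cons, sub_zero] at h3
        exact h3
      rw [h4, zero_mul]
  classical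
  obtain ⟨y₀, hy₀α, hy₀⟩ := hex
  obtain ⟨x, hxmem, hxmax⟩ := Finset.exists_max_image
    (Finset.univ.filter (fun y => χ₁ (FreeGroup.of y) ≠ 1)) d ⟨y₀, by simpa using hy₀⟩
  have hx : χ₁ (FreeGroup.of x) ≠ 1 := by simpa using hxmem
  have hxmax' : ∀ y, χ₁ (FreeGroup.of y) ≠ 1 → d y ≤ d x := fun y hy => hxmax y (by simpa using hy)
  have hdx : d x = α := by
    apply le_antisymm
    · by_contra hcon
      push Not at hcon
      apply hx
      rw [hχ₁]
      exact hα1 (hφ (α + 1) _ (D_antitone d hcon (of_mem_D d x)))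
    · exact hy₀α.trans (hxmax' y₀ hy₀)
  subst hdx
  -- the Nielsen automorphism
  set a := Multiplicative.toAdd (χ₁ (FreeGroup.of x)) with ha
  have ha0 : a ≠ 0 := fun h => hx (Multiplicative.toAdd.injective h)
  let n : Y → ℕ := fun y => if y = x then 0 else
    (-(Multiplicative.toAdd (χ₁ (FreeGroup.of y))) / a).val
  have hnx : n x = 0 := by simp [n]
  let θ : FreeGroup Y →* FreeGroup Y :=
    FreeGroup.lift (fun y => FreeGroup.of y * FreeGroup.of x ^ n y)
  let θ' : FreeGroup Y →* FreeGroup Y :=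
    FreeGroup.lift (fun y => FreeGroup.of y * (FreeGroup.of x ^ n y)⁻¹)
  have hθ : ∀ y, θ (FreeGroup.of y) = FreeGroup.of y * FreeGroup.of x ^ n y := by
    intro y; simp [θ]
  have hθ' : ∀ y, θ' (FreeGroup.of y) = FreeGroup.of y * (FreeGroup.of x ^ n y)⁻¹ := by
    intro y; simp [θ']
  have hθx : θ (FreeGroup.of x) = FreeGroup.of x := by rw [hθ, hnx]; simp
  have hθx' : θ' (FreeGroup.of x) = FreeGroup.of x := by rw [hθ', hnx]; simp
  have hθθ' : ∀ f, θ (θ' f) = f := by
    have : θ.comp θ' = MonoidHom.id _ := by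
      ext y
      rw [MonoidHom.comp_apply, hθ', map_mul, map_inv, map_pow, hθx, hθ]
      simp
    exact fun f => DFunLike.congr_fun this f
  have hθ'θ : ∀ f, θ' (θ f) = f := by
    have : θ'.comp θ = MonoidHom.id _ := by
      ext y
      rw [MonoidHom.comp_apply, hθ, map_mul, map_pow, hθx', hθ']
      simp
    exact fun f => DFunLike.congr_fun this f
  have hnD : ∀ y, FreeGroup.of x ^ n y ∈ D p d (d y) := by
    intro y
    by_cases hy : χ₁ (FreeGroup.of y) = 1
    · have : n y = 0 := by simp [n, hy]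
      rw [this, pow_zero]
      exact Subgroup.one_mem _
    · exact Subgroup.pow_mem _ (D_antitone d (hxmax' y hy) (of_mem_D d x)) _
  have hθD : ∀ m f, f ∈ D p d m → θ f ∈ D p d m := by
    intro m f hf
    refine map_mem_D hd θ (fun y => ?_) hf
    rw [hθ]
    exact Subgroup.mul_mem _ (of_mem_D d y) (hnD y)
  have hθ'D : ∀ m f, f ∈ D p d m → θ' f ∈ D p d m := by
    intro m f hf
    refine map_mem_D hd θ' (fun y => ?_) hf
    rw [hθ']
    exact Subgroup.mul_mem _ (of_mem_D d y) (Subgroup.inv_mem _ (hnD y))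
  refine step_core t ht N V V' Fil b hNV' d (φ.comp θ) (fun l => θ' (R l)) e hd ?_ ?_ ?_ hs hb x
    (χ₁.comp θ) ?_ ?_ ?_ hV'le
  · intro m
    rw [← hmap m, ← Subgroup.map_map]
    congr 2
    apply le_antisymm
    · rintro _ ⟨f, hf, rfl⟩
      exact hθD m f hf
    · intro f hf
      exact ⟨θ' f, hθ'D m f hf, hθθ' f⟩
  · rw [← Subgroup.comap_comap, hcomap]
    have h1 : (Subgroup.normalClosure (Set.range R)).comap θ =
        (Subgroup.normalClosure (Set.range R)).map θ' := by
      ext f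
      constructor
      · intro hf
        exact ⟨θ f, hf, hθ'θ f⟩
      · rintro ⟨g, hg, rfl⟩
        rw [Subgroup.mem_comap, hθθ']
        exact hg
    rw [h1, Subgroup.map_normalClosure _ _ (fun f => ⟨θ f, hθ'θ f⟩), ← Set.range_comp]
    rfl
  · intro l
    exact hθ'D _ _ (hR l)
  · intro f
    rw [MonoidHom.comp_apply, MonoidHom.comp_apply]
    exact hχ₁ _
  · intro y hy
    rw [MonoidHom.comp_apply, hθ, map_mul, map_pow]
    apply Multiplicative.toAdd.injective
    rw [toAdd_mul, toAdd_pow, toAdd_one, ← ha, nsmul_eq_mul]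
    have : ((n y : ℕ) : ZMod p) = -(Multiplicative.toAdd (χ₁ (FreeGroup.of y))) / a := by
      simp only [n, if_neg hy]
      exact ZMod.natCast_zmod_val _
    rw [this]
    field_simp
    ring
  · rw [MonoidHom.comp_apply, hθx]
    exact hx

end Pool.Agent.Helper95_DC
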