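import Pool.Agent.Helper95_DC.Defs

set_option autoImplicit false

/-!
Probability measure preserving systems, Bernoulli systems, and the statements of the
measure-theoretic modules.
-/

namespace Pool.Agent.Helper95_DC

open MeasureTheory Filter

/-- A probability measure preserving system of a group `G`. -/
structure Sys (G : Type) [Group G] (Ω : Type) [MeasurableSpace Ω] where
  P : Measure Ω
  prob : IsProbabilityMeasure P
  T : G → Ω → Ω
  T_one : ∀ ω, T 1 ω = ω
  T_mul : ∀ g h ω, T (g * h) ω = T g (T h ω)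
  mp : ∀ g, MeasurePreserving (T g) P P

attribute [instance] Sys.prob

variable {G : Type} [Group G]

/-- Ergodicity. -/
def Sys.Erg {Ω : Type} [MeasurableSpace Ω] (s : Sys G Ω) : Prop :=
  ∀ A : Set Ω, MeasurableSet A → (∀ g, ∀ᵐ ω ∂s.P, (s.T g ω ∈ A ↔ ω ∈ A)) → s.P A = 0 ∨ s.P A = 1

/-- A strong form of mixing on a generating π-system. -/
def Sys.PiMixing {Ω : Type} [mΩ : MeasurableSpace Ω] (s : Sys G Ω) : Prop :=
  ∃ 𝒞 : Set (Set Ω), IsPiSystem 𝒞 ∧ mΩ = MeasurableSpace.generateFrom 𝒞 ∧ Set.univ ∈ 𝒞 ∧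
    ∀ A ∈ 𝒞, ∀ B ∈ 𝒞, ∀ᶠ g in cofinite, s.P (A ∩ s.T g ⁻¹' B) = s.P A * s.P B

/-- Product of two systems. -/
noncomputable def Sys.prod {Ω Ω' : Type} [MeasurableSpace Ω] [MeasurableSpace Ω']
    (s : Sys G Ω) (s' : Sys G Ω') : Sys G (Ω × Ω') where
  P := s.P.prod s'.P
  prob := inferInstance
  T g ω := (s.T g ω.1, s'.T g ω.2)
  T_one ω := by rw [s.T_one, s'.T_one]
  T_mul g h ω := by rw [s.T_mul, s'.T_mul]
  mp g := (s.mp g).prod (s'.mp g)

/-- The shift. -/
def shift {B : Type} (g : G) (x : G → B) : G → B := fun h => x (g⁻¹ * h)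

/-- The Bernoulli system over the probability space `(B, β)`. -/
noncomputable def bern (G : Type) [Group G] {B : Type} [MeasurableSpace B] (β : Measure B)
    [IsProbabilityMeasure β] : Sys G (G → B) where
  P := Measure.infinitePi (fun _ : G => β)
  prob := inferInstance
  T := shift
  T_one x := by funext h; simp [shift]
  T_mul g h x := by funext k; simp [shift, mul_assoc]
  mp g := by
    refine ⟨?_, ?_⟩
    · unfold shift
      fun_prop
    · refine Measure.eq_infinitePi _ (fun s t ht => ?_)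
      classical
      have hmeas : Measurable (shift g : (G → B) → (G → B)) := by
        unfold shift
        fun_prop
      rw [Measure.map_apply hmeas (MeasurableSet.pi s.countable_toSet (fun i _ => ht i))]
      have : (shift g : (G → B) → (G → B)) ⁻¹' (Set.pi (s : Set G) t) =
          Set.pi ((s.image (fun h => g⁻¹ * h) : Finset G) : Set G) (fun h => t (g * h)) := by
        ext x
        simp only [shift, Set.mem_preimage, Set.mem_pi, SetLike.mem_coe, Finset.coe_image,
          Set.mem_image]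
        constructor
        · rintro h i ⟨j, hj, rfl⟩
          simpa using h j hj
        · intro h i hi
          simpa using h (g⁻¹ * i) ⟨i, hi, rfl⟩
      rw [this, Measure.infinitePi_pi]
      · rw [Finset.prod_image]
        · simp
        · intro a _ b _ hab
          exact mul_left_cancel hab
      · intro i _
        exact ht _

/-- The base space of the Bernoulli action. -/
abbrev X0 (G : Type) : Type := G → unitInterval

/-- The auxiliary space: an independent copy and the resampling times. -/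
abbrev Z0 (G : Type) : Type := G → unitInterval × unitInterval

/-- The Bernoulli system on `X0 G`. -/
noncomputable def bX (G : Type) [Group G] : Sys G (X0 G) := bern G (volume : Measure unitInterval)

/-- The Bernoulli system on `Z0 G`. -/
noncomputable def bZ (G : Type) [Group G] : Sys G (Z0 G) :=
  bern G (volume : Measure (unitInterval × unitInterval))

/-- The path of factor maps: coordinates with resampling time `< t` are replaced. -/
noncomputable def path (t : ℝ) (ω : X0 G × Z0 G) : X0 G :=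
  fun g => if ((ω.2 g).2 : ℝ) < t then (ω.2 g).1 else ω.1 g

/-- MODULE MIX. -/
def MixStatement : Prop :=
  (∀ (G : Type) [Group G] [Countable G] [Infinite G] (B : Type) [MeasurableSpace B]
      (β : Measure B) [IsProbabilityMeasure β], (bern G β).PiMixing) ∧
  (∀ (G : Type) [Group G] (Ω Ω' : Type) [MeasurableSpace Ω] [MeasurableSpace Ω'] (s : Sys G Ω)
      (s' : Sys G Ω'), s.PiMixing → s'.PiMixing → (s.prod s').PiMixing) ∧
  (∀ (G : Type) [Group G] [Infinite G] (Ω : Type) [MeasurableSpace Ω] (s : Sys G Ω),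
      s.PiMixing → s.Erg)

/-- MODULE PATH. -/
def PathStatement : Prop :=
  ∀ (G : Type) [Group G] [Countable G],
    (∀ t, MeasurePreserving (path (G := G) t) ((bX G).prod (bZ G)).P (bX G).P) ∧
    (∀ t g ω, path t (((bX G).prod (bZ G)).T g ω) = (bX G).T g (path (G := G) t ω)) ∧
    (∀ ω, path (G := G) 0 ω = ω.1) ∧ (∀ ω, path (G := G) 2 ω = fun g => (ω.2 g).1) ∧
    (∀ (K : Type) [Countable K] (F : X0 G → K), (∀ k, MeasurableSet (F ⁻¹' {k})) →
      ∀ ε : ℝ, 0 < ε → ∃ η : ℝ, 0 < η ∧ ∀ t t' : ℝ, |t - t'| ≤ η →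
        ((bX G).prod (bZ G)).P.real {ω | F (path t ω) ≠ F (path t' ω)} ≤ ε)

/-- MODULE GAP: spectral gap for ergodic systems of Kazhdan groups. -/
def GapStatement : Prop :=
  ∀ (G : Type) [Group G] (S : Finset G) (C : ℝ), 0 ≤ C → Kazhdan G S C →
    ∀ (Ω : Type) [MeasurableSpace Ω] (s : Sys G Ω), s.Erg →
      ∀ A : Set Ω, MeasurableSet A → ∀ ε : ℝ, 0 ≤ ε →
        (∀ g ∈ S, s.P.real {ω | ¬ (s.T g ω ∈ A ↔ ω ∈ A)} ≤ ε) →
          s.P.real A * (1 - s.P.real A) ≤ C ^ 2 * ε

/-- MODULE SR: cocycle superrigidity of the Bernoulli action. -/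
def SRStatement : Prop :=
  ∀ (G : Type) [Group G] [Countable G] [Infinite G] (S : Finset G) (C : ℝ), 0 ≤ C →
    Kazhdan G S C →
    ∀ c : G → X0 G → G, (∀ g k, MeasurableSet {x | c g x = k}) →
      (∀ g h x, c (g * h) x = c g ((bX G).T h x) * c h x) →
      ∃ (φ : X0 G → G) (π : G →* G), (∀ k, MeasurableSet {x | φ x = k}) ∧
        ∀ g, ∀ᵐ x ∂(bX G).P, c g x = φ ((bX G).T g x) * π g * (φ x)⁻¹

/-- MODULE STAB: a homomorphism from the Bernoulli orbit relation to the conjugation action on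
closed subgroups takes values in one orbit. -/
def StabStatement : Prop :=
  ∀ (G : Type) [Group G] [Countable G] [Infinite G] (S : Finset G) (C : ℝ), 0 ≤ C →
    Kazhdan G S C →
    ∀ V : ℕ → Subgroup G, Antitone V → (∀ j, (V j).Normal) → (∀ j, (V j).FiniteIndex) →
    ∀ ψ : ℕ → X0 G → Subgroup G, (∀ j x, V j ≤ ψ j x) → (∀ i j x, i ≤ j → ψ i x = ψ j x ⊔ V i) →
      (∀ j (L : Subgroup G), MeasurableSet {x | ψ j x = L}) →
    ∀ c : G → X0 G → G, (∀ g k, MeasurableSet {x | c g x = k}) →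
      (∀ g, ∀ᵐ x ∂(bX G).P, ∀ j h, h ∈ ψ j ((bX G).T g x) ↔ (c g x)⁻¹ * h * c g x ∈ ψ j x) →
    ∀ A : Set (X0 G), (∀ᵐ x ∂(bX G).P, x ∈ A) →
      ∃ x₀ ∈ A, ∃ γ : X0 G → G, (∀ k, MeasurableSet {x | γ x = k}) ∧
        ∀ᵐ x ∂(bX G).P, ∀ j h, h ∈ ψ j x₀ ↔ (γ x)⁻¹ * h * γ x ∈ ψ j x

/-- MODULE LOCF: no nontrivial homomorphism to the orbit relation of a locally finite group. -/
def LocfStatement : Prop :=
  ∀ (G : Type) [Group G] [Countable G] [Infinite G] (S : Finset G) (C : ℝ), 0 ≤ C →
    Kazhdan G S C →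
    ∀ N : Subgroup G, (∀ H : Subgroup G, H ≤ N → H.FG → Finite H) →
    ∀ (Y : Type) [MeasurableSpace Y] [StandardBorelSpace Y] [MulAction G Y],
      (∀ g : G, Measurable (fun y : Y => g • y)) →
    ∀ f : X0 G → Y, Measurable f →
      (∀ g, ∀ᵐ x ∂(bX G).P, ∃ n ∈ N, f ((bX G).T g x) = n • f x) →
      ∃ y₀ : Y, (bX G).P {x | f x ∈ MulAction.orbit G y₀} ≠ 0

end Pool.Agent.Helper95_DC
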